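import Pool.Agent.Q44.BO.Avg

/-!
# The moments over all the twists
-/

set_option autoImplicit false

open scoped Classical

namespace Q44.BO

open Finset Filter Topology
open Q44.BC (lam)
open Q44.BN

theorem card_Sq (X : ℕ) : (Sq X).card ≤ 2 * X := by
  have h1 : Sq X ⊆ (Icc (-(X : ℤ)) X).erase 0 := by
    intro D hD
    obtain ⟨h2, h3⟩ := mem_Sq.1 hD
    rw [mem_erase, mem_Icc]
    exact ⟨h3.ne_zero, by omega⟩
  have h2 := card_le_card h1
  rw [card_erase_of_mem (mem_Icc.2 ⟨by omega, by omega⟩), Int.card_Icc] at h2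
  omega

variable (e : Cd)

/-- **the tail for real values** -/
theorem tail_real : ∃ η C : ℝ, 0 < η ∧ 0 < C ∧ ∀ (X : ℕ) (y : ℝ), 0 < y →
    (((Sq X).filter fun D => y ≤ (e.rs D : ℝ)).card : ℝ) ≤ C * X / y ^ η := by
  obtain ⟨q, C, hq, hC, h⟩ := tail_rs e
  have hq0 : 0 < q := by linarith
  have hl4 : 0 < Real.log 4 := Real.log_pos (by norm_num)
  have hlq : 0 < Real.log q := Real.log_pos hq
  set η : ℝ := Real.log q / Real.log 4 with hη
  have hη0 : 0 < η := by positivity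
  have h4q : (4 : ℝ) ^ η = q := by
    rw [Real.rpow_def_of_pos (by norm_num), hη, mul_div_cancel₀ _ hl4.ne', Real.exp_log hq0]
  refine ⟨η, C * q + 2, hη0, by positivity, fun X y hy => ?_⟩
  have hX0 : (0 : ℝ) ≤ X := Nat.cast_nonneg _
  have hyη : 0 < y ^ η := Real.rpow_pos_of_pos hy η
  rw [le_div_iff₀ hyη]
  rcases le_or_gt 1 y with h1 | h1
  · -- large `y`
    obtain ⟨r, hr1, hr2⟩ : ∃ r : ℕ, (4 : ℝ) ^ r ≤ y ∧ y < 4 ^ (r + 1) :=
      exists_nat_pow_near h1 (by norm_num)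
    have h2 : (((Sq X).filter fun D => y ≤ (e.rs D : ℝ)).card : ℝ) ≤ C * X / q ^ r := by
      refine le_trans ?_ (h X r)
      refine Nat.cast_le.2 (card_le_card fun D hD => ?_)
      rw [mem_filter] at hD ⊢
      exact ⟨hD.1, by exact_mod_cast hr1.trans hD.2⟩
    have h3 : y ^ η ≤ q * q ^ r := by
      have h4 : y ^ η ≤ ((4 : ℝ) ^ (r + 1)) ^ η := Real.rpow_le_rpow hy.le hr2.le hη0.le
      refine h4.trans (le_of_eq ?_)
      rw [← Real.rpow_natCast, ← Real.rpow_mul (by norm_num), mul_comm, Real.rpow_mul (by norm_num),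
        h4q, Real.rpow_natCast, pow_succ, mul_comm]
    have hqr : 0 < q ^ r := by positivity
    calc _ ≤ C * X / q ^ r * (q * q ^ r) := mul_le_mul h2 h3 hyη.le (by positivity)
      _ = C * q * X := by field_simp
      _ ≤ _ := by
        apply mul_le_mul_of_nonneg_right _ hX0
        linarith
  · have h2 : (((Sq X).filter fun D => y ≤ (e.rs D : ℝ)).card : ℝ) ≤ 2 * X := by
      exact_mod_cast (card_filter_le _ _).trans (card_Sq X)
    have h3 : y ^ η ≤ 1 := Real.rpow_le_one hy.le h1.le hη0.le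
    calc _ ≤ 2 * (X : ℝ) * 1 := mul_le_mul h2 h3 hyη.le (by positivity)
      _ ≤ _ := by
        have : 0 ≤ C * q * (X : ℝ) := by positivity
        linarith

/-- **the moments of small order** -/
theorem mom_rs : ∃ η C : ℝ, 0 < η ∧ 0 < C ∧ ∀ X : ℕ,
    ∑ D ∈ Sq X, (e.rs D : ℝ) ^ η ≤ C * X := by
  obtain ⟨q, C, hq, hC, h⟩ := tail_rs e
  have hq0 : 0 < q := by linarith
  have hl4 : 0 < Real.log 4 := Real.log_pos (by norm_num)
  have hlq : 0 < Real.log q := Real.log_pos hq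
  set s : ℝ := Real.sqrt q with hs
  have hs1 : 1 < s := by
    rw [hs, Real.lt_sqrt (by norm_num), one_pow]
    exact hq
  have hs0 : 0 < s := by linarith
  have hss : s ^ 2 = q := Real.sq_sqrt hq0.le
  set η : ℝ := Real.log s / Real.log 4 with hη
  have hls : 0 < Real.log s := Real.log_pos hs1
  have hη0 : 0 < η := by positivity
  have h4s : (4 : ℝ) ^ η = s := by
    rw [Real.rpow_def_of_pos (by norm_num), hη, mul_div_cancel₀ _ hl4.ne', Real.exp_log hs0]
  have hinv : s⁻¹ < 1 := inv_lt_one_of_one_lt₀ hs1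
  have h1s : 0 < 1 - s⁻¹ := by linarith
  refine ⟨η, C * s * (1 - s⁻¹)⁻¹, hη0, by positivity, fun X => ?_⟩
  have hX0 : (0 : ℝ) ≤ X := Nat.cast_nonneg _
  obtain ⟨M, hM⟩ : ∃ M : ℕ, ∀ D ∈ Sq X, ∀ r : ℕ, 4 ^ r ≤ e.rs D → r < M := by
    refine ⟨(Sq X).sup e.rs, fun D hD r hr => ?_⟩
    have h2 : e.rs D ≤ (Sq X).sup e.rs := Finset.le_sup hD
    have h3 : r < 4 ^ r := Nat.lt_pow_self (by norm_num)
    omega
  have h1 : ∀ D ∈ Sq X, (e.rs D : ℝ) ^ η ≤
      ∑ r ∈ range M, if 4 ^ r ≤ e.rs D then s ^ (r + 1) else 0 := by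
    intro D hD
    have hp : (1 : ℝ) ≤ (e.rs D : ℝ) := by exact_mod_cast e.rs_pos (mem_Sq.1 hD).2
    obtain ⟨r, hr1, hr2⟩ : ∃ r : ℕ, (4 : ℝ) ^ r ≤ (e.rs D : ℝ) ∧ (e.rs D : ℝ) < 4 ^ (r + 1) :=
      exists_nat_pow_near hp (by norm_num)
    have hr1' : 4 ^ r ≤ e.rs D := by exact_mod_cast hr1
    have h2 : (e.rs D : ℝ) ^ η ≤ s ^ (r + 1) := by
      have h4 : (e.rs D : ℝ) ^ η ≤ ((4 : ℝ) ^ (r + 1)) ^ η :=
        Real.rpow_le_rpow (by linarith) hr2.le hη0.le
      refine h4.trans (le_of_eq ?_)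
      rw [← Real.rpow_natCast, ← Real.rpow_mul (by norm_num), mul_comm, Real.rpow_mul (by norm_num),
        h4s, Real.rpow_natCast]
    refine h2.trans ?_
    have h3 := single_le_sum (f := fun r => if 4 ^ r ≤ e.rs D then s ^ (r + 1) else 0)
      (fun i _ => by positivity) (mem_range.2 (hM D hD r hr1'))
    simp only [if_pos hr1'] at h3
    exact h3
  refine (sum_le_sum h1).trans ?_
  rw [sum_comm]
  have h2 : ∀ r ∈ range M, ∑ D ∈ Sq X, (if 4 ^ r ≤ e.rs D then s ^ (r + 1) else 0) ≤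
      C * s * X * s⁻¹ ^ r := by
    intro r _
    rw [← sum_filter, sum_const, nsmul_eq_mul]
    have h3 := mul_le_mul_of_nonneg_right (h X r) (show 0 ≤ s ^ (r + 1) by positivity)
    refine h3.trans (le_of_eq ?_)
    rw [← hss, pow_succ s r, inv_pow, ← pow_mul, mul_comm 2 r, pow_mul]
    have : s ^ r ≠ 0 := by positivity
    field_simp
  refine (sum_le_sum h2).trans ?_
  rw [← mul_sum]
  have h3 : ∑ r ∈ range M, s⁻¹ ^ r ≤ (1 - s⁻¹)⁻¹ := by
    rw [← tsum_geometric_of_lt_one (by positivity) hinv]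
    exact (summable_geometric_of_lt_one (by positivity) hinv).sum_le_tsum _ fun i _ => by positivity
  calc C * s * X * ∑ r ∈ range M, s⁻¹ ^ r ≤ C * s * X * (1 - s⁻¹)⁻¹ :=
        mul_le_mul_of_nonneg_left h3 (by positivity)
    _ = _ := by ring

/-- the rank -/
noncomputable def rk (D : ℤ) : ℕ := Module.finrank ℤ (e.Ed D).toAffine.Point

theorem two_rk_le {D : ℤ} (hD : Squarefree D) : 2 ^ rk e D ≤ e.rs D := by
  have h1 := e.rs_pos hD
  unfold Cd.rs at h1 ⊢
  unfold rk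
  have h2 : 0 < Nat.card {x : Pool.Agent.W262.SH.Sha (e.Ed D) // x + x = 0} :=
    Nat.pos_of_ne_zero fun h => by rw [h, mul_zero] at h1; exact lt_irrefl _ h1
  exact Nat.le_mul_of_pos_right _ h2

/-- **all the moments of the rank** -/
theorem mom_rk (k : ℕ) : ∃ C : ℝ, 0 < C ∧ ∀ X : ℕ, ∑ D ∈ Sq X, (rk e D : ℝ) ^ k ≤ C * X := by
  obtain ⟨η, C, hη, hC, h⟩ := mom_rs e
  -- a power dominates
  obtain ⟨K, hK, hKr⟩ : ∃ K : ℝ, 0 < K ∧ ∀ r : ℕ, (r : ℝ) ^ k ≤ K * ((2 : ℝ) ^ η) ^ r := by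
    rcases Nat.eq_zero_or_pos k with hk | hk
    · refine ⟨1, one_pos, fun r => ?_⟩
      rw [hk, pow_zero, one_mul]
      exact one_le_pow₀ (Real.one_le_rpow (by norm_num) hη.le)
    · have hk0 : (0 : ℝ) < k := by exact_mod_cast hk
      have h1 : 1 < (2 : ℝ) ^ (η / k) := Real.one_lt_rpow (by norm_num) (by positivity)
      obtain ⟨K, hK, hr⟩ := le_pow_of h1
      refine ⟨K ^ k, by positivity, fun r => ?_⟩
      have h2 := pow_le_pow_left₀ (Nat.cast_nonneg r) (hr r) k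
      refine h2.trans (le_of_eq ?_)
      rw [mul_pow]
      congr 1
      rw [← pow_mul, mul_comm r k, pow_mul]
      congr 1
      rw [← Real.rpow_natCast, ← Real.rpow_mul (by norm_num), div_mul_cancel₀ _ hk0.ne']
  refine ⟨K * C, by positivity, fun X => ?_⟩
  have h1 : ∀ D ∈ Sq X, (rk e D : ℝ) ^ k ≤ K * (e.rs D : ℝ) ^ η := by
    intro D hD
    refine (hKr _).trans (mul_le_mul_of_nonneg_left ?_ hK.le)
    have h2 : ((2 : ℝ) ^ rk e D) ≤ (e.rs D : ℝ) := by
      exact_mod_cast two_rk_le e (mem_Sq.1 hD).2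
    have h3 := Real.rpow_le_rpow (by positivity) h2 hη.le
    refine le_trans (le_of_eq ?_) h3
    rw [← Real.rpow_natCast, ← Real.rpow_natCast, ← Real.rpow_mul (by norm_num),
      ← Real.rpow_mul (by norm_num), mul_comm]
  refine (sum_le_sum h1).trans ?_
  rw [← mul_sum, mul_assoc]
  exact mul_le_mul_of_nonneg_left (h X) hK.le

end Q44.BO
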