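import Pool.Agent.Q44.BO.Cls

/-!
# The averages of the functions of the dimension
-/

set_option autoImplicit false

open scoped Classical

namespace Q44.BO

open Finset Filter Topology
open Q44.BC (lam lam_A summ_lam)
open Q44.BN

/-- the exponent -/
def lg (n : ℕ) : ℕ := Nat.log 2 n - 1

theorem lg_pow (r : ℕ) : lg (2 ^ (r + 1)) = r := by
  unfold lg
  rw [Nat.log_pow (by norm_num)]
  rfl

theorem lg_eq {n r : ℕ} (hn : ∃ r, n = 2 ^ (r + 1)) : lg n = r ↔ n = 2 ^ (r + 1) := by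
  obtain ⟨s, rfl⟩ := hn
  rw [lg_pow]
  constructor
  · rintro rfl
    rfl
  · intro h
    have := Nat.pow_right_injective (le_refl 2) h
    omega

/-- **dominated convergence for the laws** -/
theorem avg_lim {S : ℕ → Finset ℤ} {n : ℤ → ℕ} {p : ℕ → ℝ} {q K : ℝ} (hq : 1 < q)
    (hn : ∀ X, ∀ D ∈ S X, ∃ r, n D = 2 ^ (r + 1))
    (hlaw : ∀ r : ℕ, Tendsto (fun X : ℕ => (((S X).filter fun D => n D = 2 ^ (r + 1)).card : ℝ) /
      ((S X).card : ℝ)) atTop (𝓝 (p r)))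
    (htail : ∀ᶠ X : ℕ in atTop, 0 < (S X).card ∧ ∀ r : ℕ,
      (((S X).filter fun D => 2 ^ (r + 1) ≤ n D).card : ℝ) ≤ K * ((S X).card : ℝ) / q ^ r)
    {f : ℕ → ℝ} {q₁ : ℝ} (hq₀ : 0 ≤ q₁) (hq₁ : q₁ < q) (hf : ∀ r, |f r| ≤ q₁ ^ r) :
    Tendsto (fun X : ℕ => (∑ D ∈ S X, f (lg (n D))) / ((S X).card : ℝ)) atTop
      (𝓝 (∑' r, f r * p r)) := by
  have hq0 : 0 < q := by linarith
  -- the sum over the values
  have h1 : ∀ X, (∑ D ∈ S X, f (lg (n D))) / ((S X).card : ℝ) =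
      ∑' r, f r * ((((S X).filter fun D => n D = 2 ^ (r + 1)).card : ℝ) / ((S X).card : ℝ)) := by
    intro X
    obtain ⟨M, hM⟩ : ∃ M : ℕ, ∀ D ∈ S X, lg (n D) < M := by
      refine ⟨(S X).sup (fun D => lg (n D)) + 1, fun D hD => ?_⟩
      have h2 : lg (n D) ≤ (S X).sup (fun D => lg (n D)) :=
        Finset.le_sup (f := fun D => lg (n D)) hD
      omega
    rw [tsum_eq_sum (s := range M)]
    · rw [← sum_fiberwise_of_maps_to (s := S X) (t := range M) (g := fun D => lg (n D))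
        (fun D hD => mem_range.2 (hM D hD)), sum_div]
      refine sum_congr rfl fun r _ => ?_
      rw [mul_div_assoc']
      congr 1
      have h2 : ∀ D ∈ (S X).filter (fun D => lg (n D) = r), f (lg (n D)) = f r := fun D hD => by
        rw [(mem_filter.1 hD).2]
      rw [sum_congr rfl h2, sum_const, nsmul_eq_mul, mul_comm]
      congr 2
      congr 1
      exact filter_congr fun D hD => lg_eq (hn X D hD)
    · intro r hr
      rw [mem_range, not_lt] at hr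
      have h2 : (S X).filter (fun D => n D = 2 ^ (r + 1)) = ∅ := by
        rw [filter_eq_empty_iff]
        intro D hD h3
        have h4 := hM D hD
        rw [h3, lg_pow] at h4
        omega
      rw [h2, card_empty, Nat.cast_zero, zero_div, mul_zero]
  simp only [h1]
  refine tendsto_tsum_of_dominated_convergence (bound := fun r => K * (q₁ / q) ^ r) ?_ ?_ ?_
  · refine (summable_geometric_of_lt_one (div_nonneg hq₀ hq0.le) ?_).mul_left _
    rwa [div_lt_one hq0]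
  · intro r
    exact (hlaw r).const_mul _
  · filter_upwards [htail] with X hX r
    obtain ⟨hN, hX⟩ := hX
    have hN' : (0 : ℝ) < ((S X).card : ℝ) := by exact_mod_cast hN
    rw [Real.norm_eq_abs, abs_mul, abs_div, Nat.abs_cast, Nat.abs_cast]
    have h2 : (((S X).filter fun D => n D = 2 ^ (r + 1)).card : ℝ) / ((S X).card : ℝ) ≤
        K / q ^ r := by
      rw [div_le_iff₀ hN']
      have h3 : (((S X).filter fun D => n D = 2 ^ (r + 1)).card : ℝ) ≤
          (((S X).filter fun D => 2 ^ (r + 1) ≤ n D).card : ℝ) := by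
        refine Nat.cast_le.2 (card_le_card fun D hD => ?_)
        rw [mem_filter] at hD ⊢
        exact ⟨hD.1, hD.2.ge⟩
      refine h3.trans ((hX r).trans (le_of_eq ?_))
      ring
    calc |f r| * ((((S X).filter fun D => n D = 2 ^ (r + 1)).card : ℝ) / ((S X).card : ℝ)) ≤
          q₁ ^ r * (K / q ^ r) := mul_le_mul (hf r) h2 (by positivity) (by positivity)
      _ = K * (q₁ / q) ^ r := by rw [div_pow]; ring

/-- the mean of `2 ^ r` -/
theorem sum_two_lam {t : ℝ} (ht : 0 ≤ t) : HasSum (fun r : ℕ => (2 : ℝ) ^ r * lam t r) (1 + t) := by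
  have e1 : ∀ r, (2 : ℝ) ^ r * lam t r = lam (2 * t) r + t * lam t r := by
    intro r
    rw [lam_A t]
    ring
  simp only [e1]
  have h1 := lam_hasSum (t := 2 * t) (by positivity)
  have h2 := (lam_hasSum ht).mul_left t
  rw [mul_one] at h2
  exact h1.add h2

theorem summ_rlam {t : ℝ} (ht : 0 ≤ t) (hl : ∀ r, 0 ≤ lam t r) :
    Summable fun r : ℕ => (r : ℝ) * lam t r := by
  refine Summable.of_nonneg_of_le (fun r => mul_nonneg (Nat.cast_nonneg _) (hl r)) (fun r => ?_)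
    (sum_two_lam ht).summable
  refine mul_le_mul_of_nonneg_right ?_ (hl r)
  have : r ≤ 2 ^ r := Nat.lt_two_pow_self.le
  exact_mod_cast this

/-- the mean of `r` -/
theorem mean_le {t : ℝ} (ht : 0 ≤ t) (hl : ∀ r, 0 ≤ lam t r) :
    ∑' r : ℕ, (r : ℝ) * lam t r ≤ t - lam t 2 := by
  have h1 : HasSum (fun r : ℕ => (2 : ℝ) ^ r * lam t r - lam t r) t := by
    have h2 := (sum_two_lam ht).sub (lam_hasSum ht)
    rwa [add_sub_cancel_left] at h2
  have h2 : HasSum (fun r : ℕ => if r = 2 then lam t 2 else 0) (lam t 2) := hasSum_ite_eq 2 _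
  have h3 := h1.sub h2
  refine hasSum_le (fun r => ?_) (summ_rlam ht hl).hasSum h3
  have h4 : r + 1 ≤ 2 ^ r := Nat.lt_two_pow_self
  have h4' : (r : ℝ) + 1 ≤ 2 ^ r := by exact_mod_cast h4
  split_ifs with h
  · subst h
    have := hl 2
    norm_num
    linarith
  · rw [sub_zero]
    have := mul_le_mul_of_nonneg_right h4' (hl r)
    linarith

/-- the value at two for the constant one -/
theorem lam_one_two : 0.128 < lam 1 2 := by
  have h0 := lam_one.1
  have h1 := lam_A (1 / 2) 0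
  have h2 := Q44.BC.lam_B (1 / 2) 0
  have h3 := lam_A (1 / 2) 1
  have h4 := Q44.BC.lam_B (1 / 2) 1
  norm_num at h0 h1 h2 h3 h4 ⊢
  linarith

/-- the class of `D₀` up to `X` -/
noncomputable def Cls (e : Cd) (D₀ : ℤ) (X : ℕ) : Finset ℤ :=
  (Sq X).filter fun D => Same e.a e.b D₀ D

theorem mem_Cls {e : Cd} {D₀ D : ℤ} {X : ℕ} : D ∈ Cls e D₀ X ↔ D ∈ Sq X ∧ Same e.a e.b D₀ D := by
  unfold Cls
  rw [mem_filter]

/-- the limit of the averages, one Selmer group -/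
theorem avg_one (e : Cd) {n : ℤ → ℕ} (hn : ∀ D, Squarefree D → ∃ r, n D = 2 ^ (r + 1))
    (hT : TlA n) : ∃ q : ℝ, 1 < q ∧ ∀ (D₀ : ℤ) (t : ℝ), Squarefree D₀ →
    (∀ r, e.Prp D₀ (fun D => n D = 2 ^ (r + 1)) (lam t r)) → ∀ f : ℕ → ℝ, (∀ r, |f r| ≤ q ^ r) →
    Tendsto (fun X : ℕ => (∑ D ∈ Cls e D₀ X, f (lg (n D))) / ((Cls e D₀ X).card : ℝ)) atTop
      (𝓝 (∑' r, f r * lam t r)) := by
  obtain ⟨q, C, hq, hC, h⟩ := hT
  refine ⟨(1 + q) / 2, by linarith, fun D₀ t hD₀ hl f hf => ?_⟩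
  obtain ⟨η, X₀, hη, hX₀⟩ := e.density hD₀
  refine avg_lim (q := q) (K := C / η) (q₁ := (1 + q) / 2) hq ?_ ?_ ?_ (by linarith) (by linarith) hf
  · intro X D hD
    exact hn D (mem_Sq.1 (mem_Cls.1 hD).1).2
  · intro r
    refine (hl r).congr fun X => ?_
    refine congrArg₂ (fun x y : ℕ => (x : ℝ) / (y : ℝ)) ?_ rfl
    unfold Cls
    rw [filter_filter]
    exact cardS (fun D => Iff.rfl) _
  · filter_upwards [eventually_ge_atTop X₀, eventually_ge_atTop 1] with X hX hX1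
    have h1 : η * (X : ℝ) ≤ ((Cls e D₀ X).card : ℝ) := hX₀ X hX
    have hX1' : (1 : ℝ) ≤ X := by exact_mod_cast hX1
    have h2 : (0 : ℝ) < ((Cls e D₀ X).card : ℝ) := lt_of_lt_of_le (by positivity) h1
    refine ⟨by exact_mod_cast h2, fun r => ?_⟩
    have h3 : (((Cls e D₀ X).filter fun D => 2 ^ (r + 1) ≤ n D).card : ℝ) ≤
        (((Sq X).filter fun D => 2 ^ (r + 1) ≤ n D).card : ℝ) := by
      refine Nat.cast_le.2 (card_le_card fun D hD => ?_)
      rw [mem_filter] at hD ⊢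
      exact ⟨(mem_Cls.1 hD.1).1, hD.2⟩
    refine h3.trans ((h X r).trans ?_)
    apply div_le_div_of_nonneg_right _ (by positivity)
    rw [div_mul_eq_mul_div, le_div_iff₀ hη]
    calc C * X * η = C * (η * X) := by ring
      _ ≤ _ := mul_le_mul_of_nonneg_left h1 hC.le

/-- **the limits of the averages** -/
theorem avg_all (e : Cd) : ∃ q : ℝ, 1 < q ∧ ∀ D₀ : ℤ, Squarefree D₀ → ∀ f : ℕ → ℝ,
    (∀ r, |f r| ≤ q ^ r) →
    Tendsto (fun X : ℕ => (∑ D ∈ Cls e D₀ X, f (lg (e.nS D))) / ((Cls e D₀ X).card : ℝ)) atTop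
      (𝓝 (∑' r, f r * lam (e.tau D₀) r)) ∧
    Tendsto (fun X : ℕ => (∑ D ∈ Cls e D₀ X, f (lg (e.nS' D))) / ((Cls e D₀ X).card : ℝ)) atTop
      (𝓝 (∑' r, f r * lam (e.tau' D₀) r)) := by
  obtain ⟨q, hq, h⟩ := avg_one e (n := e.nS) (fun D hD => (e.pow_nS hD).2.2.1)
    (tail_sum e (tail_nS e))
  obtain ⟨q', hq', h'⟩ := avg_one e (n := e.nS') (fun D hD => (e.pow_nS hD).2.2.2)
    (tail_sum e (tail_nS' e))
  refine ⟨min q q', lt_min hq hq', fun D₀ hD f hf => ?_⟩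
  obtain ⟨-, l1, l2, -⟩ := e.facts hD
  have hm : 0 ≤ min q q' := le_min (by linarith) (by linarith)
  exact ⟨h D₀ _ hD l1 f fun r => (hf r).trans (pow_le_pow_left₀ hm (min_le_left _ _) r),
    h' D₀ _ hD l2 f fun r => (hf r).trans (pow_le_pow_left₀ hm (min_le_right _ _) r)⟩

theorem lam_nonneg (e : Cd) {D₀ : ℤ} {P : ℕ → ℤ → Prop} {t : ℝ}
    (h : ∀ r, e.Prp D₀ (P r) (lam t r)) (r : ℕ) : 0 ≤ lam t r :=
  ge_of_tendsto' (h r) fun X => by positivity

/-- a power dominates the identity -/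
theorem le_pow_of {q : ℝ} (hq : 1 < q) : ∃ K : ℝ, 0 < K ∧ ∀ r : ℕ, (r : ℝ) ≤ K * q ^ r := by
  refine ⟨1 / (q - 1), by have : 0 < q - 1 := by linarith
                          positivity, fun r => ?_⟩
  have h1 := one_add_mul_le_pow (a := q - 1) (by linarith) r
  have h2 : 1 + (q - 1) = q := by ring
  rw [h2] at h1
  rw [div_mul_eq_mul_div, one_mul, le_div_iff₀ (by linarith)]
  linarith

/-- **the mean of the dimensions** -/
theorem mean_dim (e : Cd) {D₀ : ℤ} (hD₀ : Squarefree D₀) :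
    Tendsto (fun X : ℕ => (∑ D ∈ Cls e D₀ X, ((lg (e.nS D) : ℝ) + (lg (e.nS' D) : ℝ))) /
      ((Cls e D₀ X).card : ℝ)) atTop
      (𝓝 (∑' r : ℕ, (r : ℝ) * lam (e.tau D₀) r + ∑' r : ℕ, (r : ℝ) * lam (e.tau' D₀) r)) ∧
    ∑' r : ℕ, (r : ℝ) * lam (e.tau D₀) r + ∑' r : ℕ, (r : ℝ) * lam (e.tau' D₀) r ≤
      (e.tau D₀ - lam (e.tau D₀) 2) + (e.tau' D₀ - lam (e.tau' D₀) 2) := by
  obtain ⟨q, hq, h⟩ := avg_all e
  obtain ⟨⟨t1, t2⟩, l1, l2, -⟩ := e.facts hD₀
  constructor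
  · obtain ⟨K, hK, hr⟩ := le_pow_of hq
    obtain ⟨h1, h2⟩ := h D₀ hD₀ (fun r => (r : ℝ) / K) fun r => by
      rw [abs_of_nonneg (by positivity), div_le_iff₀ hK, mul_comm]
      exact hr r
    have h3 := (h1.add h2).const_mul K
    have e1 : K * (∑' r : ℕ, (r : ℝ) / K * lam (e.tau D₀) r +
        ∑' r : ℕ, (r : ℝ) / K * lam (e.tau' D₀) r) =
        ∑' r : ℕ, (r : ℝ) * lam (e.tau D₀) r + ∑' r : ℕ, (r : ℝ) * lam (e.tau' D₀) r := by
      rw [mul_add, ← tsum_mul_left, ← tsum_mul_left]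
      congr 1
      · refine tsum_congr fun r => ?_
        field_simp
      · refine tsum_congr fun r => ?_
        field_simp
    rw [e1] at h3
    refine h3.congr fun X => ?_
    rw [← add_div, ← sum_add_distrib, mul_div_assoc', mul_sum]
    congr 1
    refine sum_congr rfl fun D _ => ?_
    field_simp
  · exact add_le_add (mean_le t1.le (lam_nonneg e l1)) (mean_le t2.le (lam_nonneg e l2))

/-- the rank and the dimensions -/
theorem log_rs (e : Cd) {D : ℤ} (hD : Squarefree D) :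
    Real.logb 2 (e.rs D) ≤ (lg (e.nS D) : ℝ) + (lg (e.nS' D) : ℝ) := by
  obtain ⟨-, -, ⟨r, hr⟩, s, hs⟩ := e.pow_nS hD
  have h1 := (e.rs_le hD).2
  have h0 := e.rs_pos hD
  rw [hr, hs, lg_pow, lg_pow]
  rw [hr, hs] at h1
  have h2 : e.rs D ≤ 2 ^ (r + s) := by
    have h3 : 2 ^ (r + 1) * 2 ^ (s + 1) = 4 * 2 ^ (r + s) := by
      rw [← pow_add]
      have : r + 1 + (s + 1) = r + s + 2 := by ring
      rw [this, pow_add]
      ring
    omega
  have h0' : (0 : ℝ) < (e.rs D : ℝ) := by exact_mod_cast h0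
  rw [Real.logb_le_iff_le_rpow (by norm_num) h0']
  have h3 : (2 : ℝ) ^ ((r : ℝ) + (s : ℝ)) = ((2 ^ (r + s) : ℕ) : ℝ) := by
    rw [← Nat.cast_add, Real.rpow_natCast]
    push_cast
    rfl
  rw [h3]
  exact_mod_cast h2

/-- **the mean of the logarithm of the size** -/
theorem mean_rs (e : Cd) {D₀ : ℤ} (hD₀ : Squarefree D₀) {ε : ℝ} (hε : 0 < ε) :
    ∀ᶠ X : ℕ in atTop, ∑ D ∈ Cls e D₀ X, Real.logb 2 (e.rs D) ≤
      ((∑' r : ℕ, (r : ℝ) * lam (e.tau D₀) r + ∑' r : ℕ, (r : ℝ) * lam (e.tau' D₀) r) + ε) *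
        ((Cls e D₀ X).card : ℝ) := by
  obtain ⟨h1, -⟩ := mean_dim e hD₀
  obtain ⟨η, X₀, hη, hX₀⟩ := e.density hD₀
  filter_upwards [h1.eventually (gt_mem_nhds (lt_add_of_pos_right _ hε)), eventually_ge_atTop X₀,
    eventually_ge_atTop 1] with X hX hX0 hX1
  have h2 : η * (X : ℝ) ≤ ((Cls e D₀ X).card : ℝ) := hX₀ X hX0
  have hX1' : (1 : ℝ) ≤ X := by exact_mod_cast hX1
  have h3 : (0 : ℝ) < ((Cls e D₀ X).card : ℝ) := lt_of_lt_of_le (by positivity) h2
  rw [div_lt_iff₀ h3] at hX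
  refine le_trans (sum_le_sum fun D hD => ?_) hX.le
  exact log_rs e (mem_Sq.1 (mem_Cls.1 hD).1).2

end Q44.BO
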