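import Pool.Agent.Q44.BM.Box
import Pool.Agent.Q44.BO.LA8

/-!
# The tail of the dimension in a box
-/

set_option autoImplicit false
set_option linter.unusedSectionVars false

open scoped Classical

namespace Q44.BO

open Finset Module
open Pool.Agent.Y703.CQ (nr sg prs HB ext)
open Pool.Agent.Y657.CQ (HB_sub)
open Q44.BC Q44.BM

variable {Φ : Fam} {G F : Type} [AddCommGroup G] [Module (ZMod 2) G] [AddCommGroup F]
    [Module (ZMod 2) F]

/-- the trivial condition -/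
def TT1 (_ : Finset ℕ) : Prop := True

/-- **The tail of the dimension in a box.** -/
theorem t_BX1 [Finite G] [Finite F] {I : Type} {cl : I → ℕ → Prop} (σ : Sys Φ G F)
    (hσ : σ.Good cl) {t : ℝ} (ht : 0 < t) (hcard : (Nat.card σ.𝓛 : ℝ) = t * Nat.card F)
    {Λ H' : Type} [Fintype Λ] [AddCommGroup H'] {lb : ℕ → Λ} {H : ℕ → H'}
    (hL : Lb σ cl lb H) :
    ∃ R, ∀ r : ℕ, BX Φ cl TT1 (fun S => r ≤ finrank (ZMod 2) (σ.Sel S)) 0 ((t + 2) / 2 ^ r)
      (Fintype.card Λ) R := by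
  obtain ⟨R₀, hLA⟩ := t_LAB1 G F ht
  refine ⟨R₀ + 1, fun r => ?_⟩
  obtain ⟨Gd, hGd⟩ : ∃ Gd : Finset ℕ → Prop, Gd = fun S => r ≤ finrank (ZMod 2) (σ.Sel S) :=
    ⟨_, rfl⟩
  rw [← hGd]
  have hGd' : ∀ S, Gd S ↔ r ≤ finrank (ZMod 2) (σ.Sel S) := fun S => by rw [hGd]
  set ε : ℝ := (t + 2) / 2 ^ r with hεd
  have hε : 0 < ε := by positivity
  intro ι _ _ J1 C X κ S₀ hκ hCX hHB hS₀ hC hdis
  set R : ℝ := 2 ^ (prs J1).card * (κ * ∏ j, (X j : ℝ)) with hR
  have hR0 : 0 ≤ R := mul_nonneg (by positivity)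
    (mul_nonneg hκ (Finset.prod_nonneg fun j _ => by positivity))
  -- facts on tuples
  have hinj : ∀ p ∈ Fintype.piFinset C, Function.Injective p := by
    intro p hp i j hij
    rw [Fintype.mem_piFinset] at hp
    by_contra hne
    have h1 := Finset.disjoint_left.1 (hdis i j hne) (hp i)
    rw [hij] at h1
    exact h1 (hp j)
  have hJ : ∀ p ∈ Fintype.piFinset C, ∀ i, i ∈ J1 ↔ Φ.A (p i) := by
    intro p hp i
    rw [Fintype.mem_piFinset] at hp
    exact (hC i _ (hp i)).2.2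
  have hd : ∀ p ∈ Fintype.piFinset C, ∀ i, p i ∉ S₀ := by
    intro p hp i
    rw [Fintype.mem_piFinset] at hp
    exact (hC i _ (hp i)).2.1
  have hP : ∀ p ∈ Fintype.piFinset C, ∀ i, Φ.P (p i) := by
    intro p hp i
    rw [Fintype.mem_piFinset] at hp
    exact (hC i _ (hp i)).1
  have hpr : ∀ p ∈ Fintype.piFinset C, ∀ i, (p i).Prime ∧ p i ≠ 2 := fun p hp i =>
    ⟨(hP p hp i).prime, Fam.ne_two (hP p hp i)⟩
  have hgd : ∀ p ∈ Fintype.piFinset C, (Gd (S₀ ∪ univ.image p) ↔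
      r ≤ finrank (ZMod 2) ((σ.D S₀ J1 p).So fun e => nr (p e.1.1) (p e.1.2))) := by
    intro p hp
    rw [hGd', σ.finrank_Sel (hpr p hp) (hinj p hp) (hd p hp) (hJ p hp)]
  -- the part with given labels
  obtain ⟨T, hT⟩ : ∃ T : (ι → ℕ) → Prop, ∀ p, T p ↔ (NdC Φ cl (R₀ + 1) S₀ (univ.image p) ∧
      TT1 (S₀ ∪ univ.image p)) := ⟨_, fun _ => Iff.rfl⟩
  have h1 : ∀ β : ι → (S₀ → ZMod 2) × (S₀ → ZMod 2) × Λ,
      |(((Fintype.piFinset C).filter fun p => (fun i => lab lb S₀ (p i)) = β ∧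
          (T p ∧ Gd (S₀ ∪ univ.image p))).card : ℝ) -
        (0:ℝ) * (((Fintype.piFinset C).filter fun p =>
          (fun i => lab lb S₀ (p i)) = β ∧ T p).card : ℝ)| ≤
      ε * (((Fintype.piFinset C).filter fun p => (fun i => lab lb S₀ (p i)) = β ∧
        NdC Φ cl (R₀ + 1) S₀ (univ.image p)).card : ℝ) + R := by
    intro β
    by_cases hemp : ((Fintype.piFinset C).filter fun p => (fun i => lab lb S₀ (p i)) = β ∧ T p) = ∅
    · have he2 : ((Fintype.piFinset C).filter fun p => (fun i => lab lb S₀ (p i)) = β ∧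
          (T p ∧ Gd (S₀ ∪ univ.image p))) = ∅ := by
        rw [Finset.filter_eq_empty_iff] at hemp ⊢
        intro p hp h
        exact hemp hp ⟨h.1, h.2.1⟩
      rw [he2, hemp]
      simp only [Finset.card_empty, Nat.cast_zero, mul_zero, sub_zero, abs_zero]
      positivity
    obtain ⟨p₀, hp₀⟩ := Finset.nonempty_iff_ne_empty.2 hemp
    rw [Finset.mem_filter] at hp₀
    obtain ⟨hp₀, hp₀β, hp₀T⟩ := hp₀
    set C' : ι → Finset ℕ := fun i => (C i).filter fun q => lab lb S₀ q = β i with hC'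
    have hpi : (Fintype.piFinset C).filter (fun p => (fun i => lab lb S₀ (p i)) = β) =
        Fintype.piFinset C' := by
      ext p
      simp only [Finset.mem_filter, Fintype.mem_piFinset, hC']
      constructor
      · rintro ⟨h2, h3⟩ i
        exact ⟨h2 i, congrFun h3 i⟩
      · intro h2
        exact ⟨fun i => (h2 i).1, funext fun i => (h2 i).2⟩
    have hlab : ∀ p : ι → ℕ, (fun i => lab lb S₀ (p i)) = β → ∀ i, lab lb S₀ (p₀ i) = lab lb S₀ (p i) := by
      intro p hp i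
      rw [congrFun hp i, congrFun hp₀β i]
    have hTp : ∀ p ∈ Fintype.piFinset C, (fun i => lab lb S₀ (p i)) = β → T p := by
      intro p hp hpβ
      rw [hT]
      have h2 := (hT p₀).1 hp₀T
      exact ⟨NdC_lab hL (hP p₀ hp₀) (hP p hp) (hinj p₀ hp₀) (hinj p hp) (hlab p hpβ) h2.1, trivial⟩
    have hNd := ((hT p₀).1 hp₀T).1
    have h2 := hLA (UU Φ S₀) ι (σ.D S₀ J1 p₀)
      (σ.D_ok hσ (hpr p₀ hp₀) (hinj p₀ hp₀) (hd p₀ hp₀) (hJ p₀ hp₀) hNd)
      (σ.D_pas hσ (hinj p₀ hp₀) (hJ p₀ hp₀) hNd) hcard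
      (σ.D_neg hσ (hinj p₀ hp₀) (hJ p₀ hp₀) hNd) r
    obtain ⟨Q, hQ⟩ : ∃ Q : (prs J1 → ZMod 2) → Prop, ∀ α, Q α ↔
      r ≤ finrank (ZMod 2) ((σ.D S₀ J1 p₀).So α) := ⟨_, fun _ => Iff.rfl⟩
    have h3 := Pool.Agent.Y356.CQ.t_EQ ι J1 C' X κ hκ
      (fun i => (Finset.card_le_card (Finset.filter_subset _ _)).trans (hCX i))
      (HB_sub hHB fun i q => lab lb S₀ q = β i) Q
    have h4 : ((Fintype.piFinset C).filter fun p => (fun i => lab lb S₀ (p i)) = β ∧
        (T p ∧ Gd (S₀ ∪ univ.image p))) =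
          ((Fintype.piFinset C').filter fun p => Q fun e => nr (p e.1.1) (p e.1.2)) := by
      rw [← hpi, Finset.filter_filter]
      refine Finset.filter_congr fun p hp => ?_
      refine and_congr_right fun hl => ?_
      rw [hgd p hp, hQ, D_lab hL (hP p₀ hp₀) (hP p hp) (hlab p hl)]
      exact ⟨fun h => h.2, fun h => ⟨hTp p hp hl, h⟩⟩
    have h4' : ((Fintype.piFinset C).filter fun p => (fun i => lab lb S₀ (p i)) = β ∧ T p) =
          Fintype.piFinset C' := by
      rw [← hpi]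
      refine Finset.filter_congr fun p hp => ?_
      exact ⟨fun h => h.1, fun h => ⟨h, hTp p hp h⟩⟩
    have h4'' : ((Fintype.piFinset C).filter fun p => (fun i => lab lb S₀ (p i)) = β ∧
        NdC Φ cl (R₀ + 1) S₀ (univ.image p)) = Fintype.piFinset C' := by
      rw [← hpi]
      refine Finset.filter_congr fun p hp => ?_
      exact ⟨fun h => h.1, fun h => ⟨h, ((hT p).1 (hTp p hp h)).1⟩⟩
    have h5 : (((Fintype.piFinset C').card : ℕ) : ℝ) = ∏ j, ((C' j).card : ℝ) := by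
      rw [Fintype.card_piFinset]
      push_cast
      rfl
    rw [h4, h4', h4'', h5]
    have h2' : |((univ.filter Q).card : ℝ) / 2 ^ (prs J1).card - (0:ℝ)| ≤ ε := by
      rw [Finset.filter_congr fun α _ => hQ α, sub_zero, abs_of_nonneg (by positivity)]
      exact h2
    set n : ℝ := (((Fintype.piFinset C').filter fun p =>
          Q fun e => nr (p e.1.1) (p e.1.2)).card : ℝ) with hn
    set q : ℝ := ((univ.filter Q).card : ℝ) / 2 ^ (prs J1).card with hq
    set P : ℝ := ∏ j, ((C' j).card : ℝ) with hP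
    have hP0 : 0 ≤ P := Finset.prod_nonneg fun j _ => by positivity
    have h6 : |n - (0:ℝ) * P| ≤ |n - q * P| + |q - (0:ℝ)| * P := by
      have h7 : n - (0:ℝ) * P = (n - q * P) + (q - (0:ℝ)) * P := by ring
      have h8 : |(q - (0:ℝ)) * P| = |q - (0:ℝ)| * P := by rw [abs_mul, abs_of_nonneg hP0]
      rw [h7, ← h8]
      exact abs_add_le _ _
    have h7 : |q - (0:ℝ)| * P ≤ ε * P := mul_le_mul_of_nonneg_right h2' hP0
    have h8 : |n - q * P| ≤ R := h3
    linarith
  -- sum over the labels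
  have hfib : ∀ (T : (ι → ℕ) → Prop) [DecidablePred T],
      (((Fintype.piFinset C).filter fun p => T p).card : ℝ) =
      ∑ β : ι → (S₀ → ZMod 2) × (S₀ → ZMod 2) × Λ, (((Fintype.piFinset C).filter fun p =>
        (fun i => lab lb S₀ (p i)) = β ∧ T p).card : ℝ) := by
    intro T _
    rw [Finset.card_eq_sum_card_fiberwise (f := fun (p : ι → ℕ) (i : ι) => lab lb S₀ (p i))
      (t := univ) (fun p hp => Finset.mem_coe.2 (mem_univ _))]
    push_cast
    refine Finset.sum_congr rfl fun β hβ => ?_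
    congr 2
    ext p
    simp only [Finset.mem_filter]
    tauto
  have hf1 := hfib fun p => T p ∧ Gd (S₀ ∪ univ.image p)
  have hf2 := hfib fun p => T p
  have hf3 := hfib fun p => NdC Φ cl (R₀ + 1) S₀ (univ.image p)
  have e1 : ((Fintype.piFinset C).filter fun p => (NdC Φ cl (R₀ + 1) S₀ (univ.image p) ∧
      TT1 (S₀ ∪ univ.image p)) ∧ Gd (S₀ ∪ univ.image p)) =
      (Fintype.piFinset C).filter fun p => T p ∧ Gd (S₀ ∪ univ.image p) :=
    Finset.filter_congr fun p _ => by rw [hT]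
  have e2 : ((Fintype.piFinset C).filter fun p => NdC Φ cl (R₀ + 1) S₀ (univ.image p) ∧
      TT1 (S₀ ∪ univ.image p)) = (Fintype.piFinset C).filter fun p => T p :=
    Finset.filter_congr fun p _ => by rw [hT]
  rw [e1, e2, hf1, hf2, hf3, Finset.mul_sum, ← Finset.sum_sub_distrib]
  refine (Finset.abs_sum_le_sum_abs _ _).trans ?_
  refine (Finset.sum_le_sum fun β _ => h1 β).trans ?_
  rw [Finset.sum_add_distrib, ← Finset.mul_sum, Finset.sum_const, nsmul_eq_mul]
  have h6 : (((univ : Finset (ι → (S₀ → ZMod 2) × (S₀ → ZMod 2) × Λ)).card : ℕ) : ℝ) =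
      (Fintype.card Λ : ℝ) ^ Fintype.card ι * 2 ^ (2 * S₀.card * Fintype.card ι) := by
    rw [Finset.card_univ, Fintype.card_fun, Fintype.card_prod, Fintype.card_prod, Fintype.card_fun,
      ZMod.card, Fintype.card_coe]
    push_cast
    rw [mul_pow, mul_pow, ← pow_mul, two_mul, add_mul, pow_add]
    ring
  rw [h6, hR, pow_add]
  refine le_of_eq ?_
  ring

end Q44.BO
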