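import Pool.Agent.Q44.BM.BAD

/-!
# The estimates for the exceptional sets with a saving
-/

set_option autoImplicit false

open scoped Classical

namespace Q44.BO

open Finset Filter
open Pool.Agent.Y703.CX (sm la eL zz kk S_SIE kk_le ev_eL lin_le)
open Pool.Agent.Y703.CQ (nr Sml sml_of sml_add)
open Pool.Agent.Y495.CX.Few (PN euler prod_pos' le_of_mem_prod mert eL_tendsto log_small zz_ge
  loglog_zz rpow_eq)
open Pool.Agent.Y362.CQ (card_sup moment)
open Pool.Agent.Y37.CX (Pm Pm_nonneg Pm_mono Pm_le)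
open Pool.Agent.Y949.CQ (prod_pos_of prod_sub_le sub_range)
open Q44.BM

/-- sets with many small primes -/
theorem sml_small1 (Φ : Fam) {δ : ℝ} (hδ : 0 < δ) {η : ℝ} (hη : 0 < η) {t : ℝ}
    (ht : t < 1 - δ / 2) : Sml t fun X =>
    (((SS Φ X).filter fun S => η * eL X < ((sm (zz X) S).card : ℝ)).card : ℝ) := by
  obtain ⟨C, hC0, hC⟩ := mert
  set κ : ℝ := Real.exp (1 / η) with hκ
  have κ0 : 0 < κ := Real.exp_pos _
  apply sml_of (C := Real.exp (κ * C)) (a := 1 - δ / 2) ht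
  filter_upwards [eL_tendsto.eventually (log_small (3 * κ) (δ / 2) (by linarith)),
    eL_tendsto.eventually (eventually_ge_atTop 2)] with X h1 h2
  have h3 := moment X (zz X) (SS Φ X)
    (fun S hS => by
      unfold SS at hS
      rw [mem_filter] at hS
      exact ⟨fun p hp => (hS.2.1 p hp).prime, hS.2.2⟩) κ κ0.le
  have h4 := hC (zz X) (zz_ge h2)
  have h5 := loglog_zz h2
  have h6 : (((SS Φ X).filter fun S => η * eL X < ((sm (zz X) S).card : ℝ)).card : ℝ) *
      Real.exp (eL X) ≤ ∑ S ∈ SS Φ X, κ ^ (sm (zz X) S).card := by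
    rw [← nsmul_eq_mul, ← sum_const]
    refine le_trans ?_ (sum_le_sum_of_subset_of_nonneg
      (filter_subset (fun S => η * eL X < ((sm (zz X) S).card : ℝ)) (SS Φ X))
      fun S _ _ => by positivity)
    refine sum_le_sum fun S hS => ?_
    rw [mem_filter] at hS
    rw [hκ, ← Real.exp_nat_mul]
    apply Real.exp_le_exp.2
    have h7 := hS.2.le
    rw [mul_one_div, le_div_iff₀ hη]
    linarith
  have h7 := h6.trans h3
  have h8 : κ * ∑ p ∈ PN (zz X), (1 : ℝ) / p ≤ κ * C + δ / 2 * eL X := by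
    have : κ * ∑ p ∈ PN (zz X), (1 : ℝ) / p ≤ κ * (3 * Real.log (eL X) + C) :=
      mul_le_mul_of_nonneg_left (by linarith) κ0.le
    nlinarith
  have h9 : (X : ℝ) * Real.exp (κ * ∑ p ∈ PN (zz X), (1 : ℝ) / p) ≤
      X * (Real.exp (κ * C) * Real.exp (δ / 2 * eL X)) := by
    rw [← Real.exp_add]
    exact mul_le_mul_of_nonneg_left (Real.exp_le_exp.2 h8) (Nat.cast_nonneg _)
  have h10 := h7.trans h9
  have h11 : (Real.exp (κ * C) * (X * Real.exp (-(1 - δ / 2) * eL X))) * Real.exp (eL X) =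
      X * (Real.exp (κ * C) * Real.exp (δ / 2 * eL X)) := by
    have : Real.exp (δ / 2 * eL X) = Real.exp (-(1 - δ / 2) * eL X) * Real.exp (eL X) := by
      rw [← Real.exp_add]
      congr 1
      ring
    rw [this]
    ring
  rw [← h11] at h10
  exact le_of_mul_le_mul_right h10 (Real.exp_pos _)

/-- sets with few large primes of the class -/
theorem sml_few01 {Φ : Fam} {δ : ℝ} (hΦ : Ok Φ δ) {w : ℕ → Prop} (hw : ∀ p, w p → Φ.P p)
    {θ C₀ : ℝ} (hθ : 0 < θ) {t : ℝ} (ht : t < 1 - δ + 3 / 10 * θ) (hm : ∀ y : ℕ, 3 ≤ y → θ * Real.log (Real.log y) - C₀ ≤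
      ∑ p ∈ (range (y + 1)).filter (fun p => p.Prime ∧ w p), (1 : ℝ) / p) :
    Sml t fun X => ((FF Φ.P (fun S =>
      ((la (zz X) S).filter fun p => w p).card ≤ ⌊θ / 4 * eL X⌋₊) X).card : ℝ) := by
  obtain ⟨C, hC0, hC⟩ := mert
  obtain ⟨C₁, hC₁⟩ := hΦ.up
  obtain ⟨C', hC'1, hC'⟩ := FF_card
  have hl4 : Real.log 4 / 4 < 7 / 20 := by
    have h1 : (4 : ℝ) = 2 ^ 2 := by norm_num
    rw [h1, Real.log_pow]
    have := Real.log_two_lt_d9
    push_cast
    linarith
  apply sml_of (C := C' * Real.exp (C + C₁ + 3 / 4 * C₀)) (a := 1 - δ + 3 / 10 * θ) ht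
  filter_upwards [eL_tendsto.eventually (log_small 3 (θ / 10) (by linarith)),
    eL_tendsto.eventually (eventually_ge_atTop 2), eventually_ge_atTop 3] with X h1 h2 h3
  set l := eL X with hl
  set z := zz X with hz
  have h4 := hC z (zz_ge h2)
  have h5 := loglog_zz h2
  have h6 := hC₁ X h3
  have h6' := hm X h3
  rw [← hl, ← hz] at h5
  change _ ≤ δ * l + C₁ at h6
  change θ * l - C₀ ≤ _ at h6'
  have h7 := hC' Φ.P (fun S => ((la z S).filter fun p => w p).card ≤ ⌊θ / 4 * l⌋₊) X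
    (fun p => if ¬ p ≤ z ∧ w p then (1 / 4 : ℝ) else 1) (Real.exp (Real.log 4 * (θ / 4) * l))
    (fun p hp => hp.prime) (fun S h S' hS' => (card_le_card (filter_subset_filter _ (by
      unfold la
      exact filter_subset_filter _ hS'))).trans h) (by omega)
    (fun p => by split_ifs <;> norm_num) (Real.exp_pos _).le (by
      intro S hS
      rw [mem_FF] at hS
      rw [← prod_filter, prod_const]
      have g1 : (S.filter fun p => ¬ p ≤ z ∧ w p).card ≤ ⌊θ / 4 * l⌋₊ := by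
        refine (card_le_card ?_).trans hS.2.2.2
        intro p hp
        rw [mem_filter] at hp
        unfold la
        rw [mem_filter, mem_filter]
        exact ⟨⟨hp.1, hp.2.1⟩, hp.2.2⟩
      have g2 : (1 / 4 : ℝ) ^ ⌊θ / 4 * l⌋₊ ≤ (1 / 4 : ℝ) ^ (S.filter fun p => ¬ p ≤ z ∧ w p).card :=
        pow_le_pow_of_le_one (by norm_num) (by norm_num) g1
      have g3 : Real.exp (-(Real.log 4 * (θ / 4) * l)) ≤ (1 / 4 : ℝ) ^ ⌊θ / 4 * l⌋₊ := by
        have e1 : (1 / 4 : ℝ) = Real.exp (-Real.log 4) := by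
          rw [Real.exp_neg, Real.exp_log (by norm_num)]
          norm_num
        rw [e1, ← Real.exp_nat_mul]
        apply Real.exp_le_exp.2
        have e2 : ((⌊θ / 4 * l⌋₊ : ℕ) : ℝ) ≤ θ / 4 * l := Nat.floor_le (by positivity)
        have e4 : 0 ≤ Real.log 4 := Real.log_nonneg (by norm_num)
        have e5 := mul_le_mul_of_nonneg_right e2 e4
        linarith
      calc (1 : ℝ) = Real.exp (Real.log 4 * (θ / 4) * l) *
            Real.exp (-(Real.log 4 * (θ / 4) * l)) := by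
            rw [← Real.exp_add, add_neg_cancel, Real.exp_zero]
        _ ≤ _ := mul_le_mul_of_nonneg_left (g3.trans g2) (Real.exp_pos _).le)
  have hlX : Real.log X = Real.exp l := by
    have := rpow_eq (X := X) h2 1
    rwa [Real.rpow_one, one_mul] at this
  rw [hlX] at h7
  -- the sum
  have h8 : ∑ p ∈ (range (X + 1)).filter (fun p => Φ.P p),
      (if ¬ p ≤ z ∧ w p then (1 / 4 : ℝ) else 1) * (1 / (p : ℝ)) ≤
      ∑ p ∈ PN z, (1 : ℝ) / p + ∑ p ∈ (range (X + 1)).filter (fun p => Φ.P p), (1 : ℝ) / p -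
        3 / 4 * ∑ p ∈ (range (X + 1)).filter (fun p => p.Prime ∧ w p), (1 : ℝ) / p := by
    have g1 : ∀ p ∈ (range (X + 1)).filter (fun p => Φ.P p),
        (if ¬ p ≤ z ∧ w p then (1 / 4 : ℝ) else 1) * (1 / (p : ℝ)) ≤
        (if p ≤ z then (1 : ℝ) / p else 0) + (1 : ℝ) / p -
          3 / 4 * (if w p then (1 : ℝ) / p else 0) := by
      intro p _
      have hp0 : (0 : ℝ) ≤ 1 / p := by positivity
      by_cases hz : p ≤ z
      · rw [if_neg (fun h => h.1 hz), if_pos hz]
        split_ifs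
        · linarith
        · linarith
      · rw [if_neg hz]
        by_cases hb : w p
        · rw [if_pos ⟨hz, hb⟩, if_pos hb]
          linarith
        · rw [if_neg (fun h => hb h.2), if_neg hb]
          linarith
    refine (sum_le_sum g1).trans ?_
    rw [sum_sub_distrib, sum_add_distrib, ← mul_sum, ← sum_filter, ← sum_filter]
    have g2 : ((range (X + 1)).filter fun p => Φ.P p).filter (fun p => w p) =
        (range (X + 1)).filter (fun p => p.Prime ∧ w p) := by
      ext p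
      simp only [mem_filter]
      constructor
      · rintro ⟨⟨a, b⟩, c⟩
        exact ⟨a, b.prime, c⟩
      · rintro ⟨a, b, c⟩
        exact ⟨⟨a, hw p c⟩, c⟩
    rw [g2]
    have g3 : ∑ p ∈ ((range (X + 1)).filter fun p => Φ.P p).filter (fun p => p ≤ z), (1 : ℝ) / p ≤
        ∑ p ∈ PN z, (1 : ℝ) / p := by
      refine sum_le_sum_of_subset_of_nonneg ?_ fun p _ _ => by positivity
      intro p hp
      rw [mem_filter, mem_filter] at hp
      rw [PN, mem_filter, mem_Icc]
      exact ⟨⟨hp.1.2.prime.one_lt.le, hp.2⟩, hp.1.2.prime⟩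
    linarith
  have h12 : Real.exp (Real.log 4 * (θ / 4) * l) * Real.exp
      (∑ p ∈ (range (X + 1)).filter (fun p => Φ.P p),
      (if ¬ p ≤ z ∧ w p then (1 / 4 : ℝ) else 1) * (1 / (p : ℝ))) ≤
      Real.exp (C + C₁ + 3 / 4 * C₀) * Real.exp ((δ - 3 / 10 * θ) * l) := by
    rw [← Real.exp_add, ← Real.exp_add]
    apply Real.exp_le_exp.2
    have e1 : ∑ p ∈ PN z, (1 : ℝ) / p ≤ 3 * Real.log l + C := by linarith
    have e2 : Real.log 4 * (θ / 4) * l ≤ 7 / 20 * θ * l := by
      have hθl : 0 ≤ θ * l := mul_nonneg hθ.le (by linarith)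
      have := mul_le_mul_of_nonneg_right hl4.le hθl
      linarith
    linarith
  have h13 := h7.trans (mul_le_mul_of_nonneg_left h12 (by positivity))
  have h14 : (C' * Real.exp (C + C₁ + 3 / 4 * C₀) *
      (X * Real.exp (-(1 - δ + 3 / 10 * θ) * l))) * Real.exp l =
      C' * X * (Real.exp (C + C₁ + 3 / 4 * C₀) * Real.exp ((δ - 3 / 10 * θ) * l)) := by
    have : Real.exp ((δ - 3 / 10 * θ) * l) =
        Real.exp (-(1 - δ + 3 / 10 * θ) * l) * Real.exp l := by
      rw [← Real.exp_add]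
      congr 1
      ring
    rw [this]
    ring
  rw [← h14] at h13
  exact le_of_mul_le_mul_right h13 (Real.exp_pos _)

/-- **few sets have few large primes of a class with many primes** -/
theorem sml_few1 {Φ : Fam} {δ : ℝ} (hΦ : Ok Φ δ) {w : ℕ → Prop} (hw : ∀ p, w p → Φ.P p)
    (hm : HM w) : ∃ a : ℝ, 0 < a ∧ ∀ t : ℝ, t < 1 - δ + a → ∀ R : ℕ, Sml t fun X =>
      (((SS Φ X).filter fun S =>
      ((la (zz X) S).filter fun p => w p).card < 2 * (sm (zz X) S).card + R).card : ℝ) := by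
  obtain ⟨θ, C₀, hθ, hm⟩ := hm
  have hδ := hΦ.pos
  refine ⟨min (δ / 2) (3 / 10 * θ), lt_min (by linarith) (by linarith), fun t ht R => ?_⟩
  have ht1 : t < 1 - δ / 2 := by
    have := min_le_left (δ / 2) (3 / 10 * θ)
    linarith
  have ht2 : t < 1 - δ + 3 / 10 * θ := by
    have := min_le_right (δ / 2) (3 / 10 * θ)
    linarith
  have h1 := sml_add (sml_small1 Φ hΦ.pos (η := θ / 12) (by linarith) ht1)
    (sml_few01 hΦ hw hθ ht2 hm)
  intro ε hε
  filter_upwards [h1 ε hε, eL_tendsto.eventually (eventually_ge_atTop (max 2 (12 * R / θ)))]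
    with X hX h8
  have h9 : 2 ≤ eL X := (le_max_left _ _).trans h8
  have h10 : 12 * R / θ ≤ eL X := (le_max_right _ _).trans h8
  rw [div_le_iff₀ hθ] at h10
  refine le_trans ?_ hX
  have h11 : ((SS Φ X).filter fun S => ((la (zz X) S).filter fun p => w p).card <
      2 * (sm (zz X) S).card + R) ⊆
      ((SS Φ X).filter fun S => θ / 12 * eL X < ((sm (zz X) S).card : ℝ)) ∪
        FF Φ.P (fun S => ((la (zz X) S).filter fun p => w p).card ≤ ⌊θ / 4 * eL X⌋₊) X := by
    intro S hS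
    rw [mem_filter] at hS
    rw [mem_union, mem_filter]
    by_cases hc : θ / 12 * eL X < ((sm (zz X) S).card : ℝ)
    · exact Or.inl ⟨hS.1, hc⟩
    · right
      rw [not_lt] at hc
      have h2 := hS.1
      unfold SS at h2
      rw [mem_filter, mem_powerset] at h2
      rw [mem_FF]
      refine ⟨h2.1, h2.2.1, h2.2.2, ?_⟩
      apply Nat.le_floor
      have h12 : ((((la (zz X) S).filter fun p => w p).card : ℕ) : ℝ) ≤
          2 * ((sm (zz X) S).card : ℝ) + R := by
        exact_mod_cast hS.2.le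
      linarith
  exact_mod_cast (card_le_card h11).trans (card_union_le _ _)

/-- **few sets have degenerate labels** -/
theorem sml_bad1 {Φ : Fam} {δ : ℝ} (hΦ : Ok Φ δ) {E : Finset ℕ} (hE : ∀ u ∈ E, u.Prime) :
    ∃ a : ℝ, 0 < a ∧ ∀ t : ℝ, t < 1 - δ + a → Sml t fun X =>
      (((SS Φ X).filter fun S => S.card ≤ kk X ∧
      ¬ Nd Φ (sm (zz X) S ∪ E) (la (zz X) S)).card : ℝ) := by
  obtain ⟨C₁, h11, h1⟩ := FF_card
  obtain ⟨θ, C₂, hθ, h20, h2⟩ := hΦ.sq
  refine ⟨θ / 2, by linarith, fun t ht => ?_⟩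
  obtain ⟨C₃, h30, h3⟩ := Pm_le
  set cE : ℝ := Real.log ((∏ u ∈ E, u : ℕ) : ℝ) with hcE
  have hcE0 : 0 ≤ cE := Real.log_natCast_nonneg _
  set K₀ : ℝ := |δ - θ| * Real.log 3 + C₂ * Real.log (11 + cE) + C₂ with hK₀
  apply sml_of (C := 2 ^ E.card * (3 * C₁ * Real.exp K₀) * Real.exp (2 * C₃))
    (a := 1 - δ + θ / 2) ht
  filter_upwards [params ((E.sup id : ℕ) : ℝ),
    eL_tendsto.eventually (log_small (4 * C₂ + 6) (θ / 2) (by linarith))] with X hX hsm
  obtain ⟨hl2, hlE, hX3, h33, hk11⟩ := hX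
  set ℓ : ℝ := eL X with hℓ
  set z : ℕ := zz X with hz
  set k : ℕ := kk X with hk
  have hlX' : Real.log X = Real.exp ℓ := by
    have := rpow_eq (X := X) hl2 1
    rwa [Real.rpow_one, one_mul] at this
  have hlX : 0 < Real.log X := by
    rw [hlX']
    exact Real.exp_pos _
  have hl0 : 0 < ℓ := by linarith
  have hl3 : (8 : ℝ) ≤ ℓ ^ 3 := by
    have := pow_le_pow_left₀ (by norm_num : (0 : ℝ) ≤ 2) hl2 3
    linarith
  have hz3 : 3 ≤ z := zz_ge hl2
  have hEz : ∀ u ∈ E, u ≤ z := by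
    intro u hu
    rw [hz]
    unfold zz
    apply Nat.le_floor
    rw [← hℓ]
    have h := Real.add_one_le_exp (ℓ ^ 3)
    have h5 : (u : ℝ) ≤ ((E.sup id : ℕ) : ℝ) := by
      have := Finset.le_sup (f := id) hu
      exact_mod_cast this
    have h6 : ℓ ≤ ℓ ^ 3 := by
      have : ℓ ^ 1 ≤ ℓ ^ 3 := pow_le_pow_right₀ (by linarith) (by norm_num)
      linarith
    linarith
  have hz1 : 1 ≤ z := by omega
  have hz0 : (0 : ℝ) < z := by exact_mod_cast hz1
  have hzlog : Real.log z ≤ ℓ ^ 3 := by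
    rw [Real.log_le_iff_le_exp hz0]
    exact Nat.floor_le (Real.exp_pos _).le
  have hzlog0 : 0 < Real.log z := Real.log_pos (by exact_mod_cast (by omega : 1 < z))
  have hl4 : (1 : ℝ) ≤ ℓ ^ 4 := one_le_pow₀ (by linarith)
  have hX0 : (0 : ℝ) < X := by exact_mod_cast (by omega : 0 < X)
  -- the size of the families
  set R : ℝ := 3 * C₁ * Real.exp (K₀ + ((δ - θ) * ℓ - ℓ) + 4 * C₂ * Real.log ℓ) with hR
  have hR0 : 0 ≤ R := by
    rw [hR]
    positivity
  have key : ∀ S₀ : Finset ℕ, (∀ u ∈ S₀, u.Prime) → (∀ u ∈ S₀, u ≤ z) → S₀.card ≤ k →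
      ∀ W ⊆ S₀ ∪ E, W.Nonempty → (∀ u ∈ W, Φ.A u) →
      ((fam Φ W (X / ∏ p ∈ S₀, p)).card : ℝ) ≤ (X : ℝ) / ((∏ p ∈ S₀, p : ℕ) : ℝ) * R := by
    intro S₀ hS₀ hSz hSk W hWS hWn hW1
    set N : ℕ := ∏ p ∈ S₀, p with hN
    have hN0 : 0 < N := prod_pos_of fun p hp => hS₀ p hp
    have hN0' : (0 : ℝ) < N := by exact_mod_cast hN0
    have hlN : Real.log N ≤ 11 * ℓ ^ 4 := by
      have e1 : Real.log N = ∑ p ∈ S₀, Real.log p := by
        rw [hN]
        push_cast
        rw [Real.log_prod]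
        intro p hp
        have := (hS₀ p hp).ne_zero
        exact_mod_cast this
      rw [e1]
      calc ∑ p ∈ S₀, Real.log p ≤ ∑ _p ∈ S₀, Real.log z := by
            refine sum_le_sum fun p hp => ?_
            exact Real.log_le_log (by exact_mod_cast (hS₀ p hp).pos) (by exact_mod_cast hSz p hp)
        _ = S₀.card * Real.log z := by rw [sum_const, nsmul_eq_mul]
        _ ≤ (11 * ℓ) * ℓ ^ 3 := by
            refine mul_le_mul (le_trans (by exact_mod_cast hSk) hk11) hzlog hzlog0.le (by positivity)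
        _ = 11 * ℓ ^ 4 := by ring
    set Y : ℕ := X / N with hY
    have hYle : (Y : ℝ) ≤ (X : ℝ) / N := Nat.cast_div_le
    have hYge : Real.exp (Real.log X / 3) ≤ Y := by
      have e1 : (X : ℝ) / N < Y + 1 := by
        rw [div_lt_iff₀ hN0']
        have := Nat.lt_mul_div_succ X hN0
        rw [← hY] at this
        have h' : ((X : ℕ) : ℝ) < ((N * (Y + 1) : ℕ) : ℝ) := by exact_mod_cast this
        push_cast at h'
        linarith
      have e2 : Real.exp (Real.log X - Real.log N) = (X : ℝ) / N := by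
        rw [Real.exp_sub, Real.exp_log hX0, Real.exp_log hN0']
      have e3 : Real.exp (Real.log X / 3 + 1) ≤ (X : ℝ) / N := by
        rw [← e2]
        apply Real.exp_le_exp.2
        linarith
      rw [Real.exp_add] at e3
      have e4 : (2 : ℝ) ≤ Real.exp 1 := by have := Real.exp_one_gt_d9; linarith
      have e5 : (1 : ℝ) ≤ Real.exp (Real.log X / 3) := Real.one_le_exp (by positivity)
      nlinarith
    have hX16 : (9 : ℝ) ≤ Real.log X / 3 := by linarith
    have hY3 : 3 ≤ Y := by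
      have e1 := Real.add_one_le_exp (Real.log X / 3)
      have e2 : (3 : ℝ) ≤ Y := by linarith
      exact_mod_cast e2
    have hY0 : (0 : ℝ) < Y := by exact_mod_cast (by omega : 0 < Y)
    have hlY : Real.log X / 3 ≤ Real.log Y := by
      rw [Real.le_log_iff_exp_le hY0]
      exact hYge
    have hYX : Y ≤ X := Nat.div_le_self _ _
    have hlYX : Real.log Y ≤ Real.log X := Real.log_le_log hY0 (by exact_mod_cast hYX)
    have hlY0 : 0 < Real.log Y := by linarith
    -- the small factor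
    have hlW : Real.log (Real.log ((∏ u ∈ W, u : ℕ) : ℝ)) ≤ Real.log (11 + cE) + 4 * Real.log ℓ := by
      have hWp : ∀ u ∈ W, u.Prime := fun u hu => (Φ.hA u (hW1 u hu)).1
      have e0 : (1 : ℝ) < ((∏ u ∈ W, u : ℕ) : ℝ) := by
        obtain ⟨u, hu⟩ := hWn
        have e5 : u ∣ ∏ u ∈ W, u := Finset.dvd_prod_of_mem _ hu
        have e6 := Nat.le_of_dvd (prod_pos_of hWp) e5
        exact_mod_cast (hWp u hu).one_lt.trans_le e6
      have hEp : 0 < ∏ u ∈ E, u := prod_pos_of fun u hu => hE u hu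
      have hEp' : (0 : ℝ) < ((∏ u ∈ E, u : ℕ) : ℝ) := by exact_mod_cast hEp
      have e1 : Real.log ((∏ u ∈ W, u : ℕ) : ℝ) ≤ (11 + cE) * ℓ ^ 4 := by
        have e7 : ∏ u ∈ W, u ≤ N * ∏ u ∈ E, u := by
          refine (prod_sub_le hWS ?_).trans ?_
          · intro u hu
            rcases mem_union.1 hu with h | h
            · exact hS₀ u h
            · exact hE u h
          · have e8 : (∏ u ∈ S₀ ∪ E, u) * ∏ u ∈ S₀ ∩ E, u = (∏ u ∈ S₀, u) * ∏ u ∈ E, u :=
              Finset.prod_union_inter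
            have e9 : 0 < ∏ u ∈ S₀ ∩ E, u :=
              prod_pos_of fun u hu => hS₀ u (mem_inter.1 hu).1
            rw [hN, ← e8]
            exact Nat.le_mul_of_pos_right _ e9
        have e10 : Real.log ((∏ u ∈ W, u : ℕ) : ℝ) ≤ Real.log N + cE := by
          rw [hcE, ← Real.log_mul hN0'.ne' hEp'.ne']
          refine Real.log_le_log (by linarith) ?_
          exact_mod_cast e7
        nlinarith
      have e2 : 0 < Real.log ((∏ u ∈ W, u : ℕ) : ℝ) := Real.log_pos e0
      refine (Real.log_le_log e2 e1).trans (le_of_eq ?_)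
      rw [Real.log_mul (by linarith) (by positivity), Real.log_pow]
      norm_num
    have hmain := h1 (QW Φ W) (fun _ => True) Y (fun _ => 1) 1 (fun p h => h.1.prime)
      (fun _ _ _ _ => trivial) (by omega) (fun _ => zero_le_one) zero_le_one
      (fun S _ => by rw [prod_const_one, one_mul])
    simp only [one_mul] at hmain
    have hs := h2 W Y hWn hW1 hY3
    have hloglog : (δ - θ) * Real.log (Real.log Y) ≤ (δ - θ) * ℓ + |δ - θ| * Real.log 3 := by
      have e1 : Real.log (Real.log Y) ≤ ℓ := Real.log_le_log hlY0 hlYX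
      have e2 : ℓ - Real.log 3 ≤ Real.log (Real.log Y) := by
        have e4 : Real.log (Real.log X / 3) = ℓ - Real.log 3 := by
          rw [Real.log_div hlX.ne' (by norm_num)]
          rfl
        rw [← e4]
        exact Real.log_le_log (by positivity) hlY
      have e3 : 0 ≤ Real.log 3 := Real.log_nonneg (by norm_num)
      rcases le_or_gt 0 (δ - θ) with h | h
      · rw [abs_of_nonneg h]
        nlinarith
      · rw [abs_of_neg h]
        nlinarith
    have hb : ∑ p ∈ (range (Y + 1)).filter (fun p => QW Φ W p), (1 : ℝ) / p ≤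
        K₀ + (δ - θ) * ℓ + 4 * C₂ * Real.log ℓ := by
      have e1 := mul_le_mul_of_nonneg_left hlW h20
      have e2 : ∑ p ∈ (range (Y + 1)).filter (fun p => QW Φ W p), (1 : ℝ) / p ≤
        (δ - θ) * Real.log (Real.log Y) +
          C₂ * Real.log (Real.log ((∏ u ∈ W, u : ℕ) : ℝ)) + C₂ := by
        refine le_trans (le_of_eq (sum_congr ?_ fun _ _ => rfl)) hs
        ext p
        rw [mem_filter, mem_filter]
        exact Iff.rfl
      rw [hK₀]
      linarith
    have hc : ((fam Φ W Y).card : ℝ) * (Real.log X / 3) ≤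
        C₁ * ((X : ℝ) / N) * Real.exp (K₀ + (δ - θ) * ℓ + 4 * C₂ * Real.log ℓ) := by
      refine (mul_le_mul_of_nonneg_left hlY (Nat.cast_nonneg _)).trans (hmain.trans ?_)
      have := Real.exp_le_exp.2 hb
      have hC1 : 0 ≤ C₁ := by linarith
      gcongr
    have hd : (X : ℝ) / N * R = (C₁ * ((X : ℝ) / N) *
        Real.exp (K₀ + (δ - θ) * ℓ + 4 * C₂ * Real.log ℓ)) / (Real.log X / 3) := by
      rw [hR, hlX', show K₀ + ((δ - θ) * ℓ - ℓ) + 4 * C₂ * Real.log ℓ =
        (K₀ + (δ - θ) * ℓ + 4 * C₂ * Real.log ℓ) - ℓ by ring, Real.exp_sub]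
      field_simp
    rw [hd, le_div_iff₀ (by positivity)]
    exact hc
  -- the sum over the small parts
  set B := (SS Φ X).filter fun S => S.card ≤ k ∧ ¬ Nd Φ (sm z S ∪ E) (la z S) with hB
  set D := (range (z + 1)).filter fun p => p.Prime with hD
  set W := D.powerset.filter fun S => S.card ≤ k with hW
  have hmaps : ∀ S ∈ B, sm z S ∈ W := by
    intro S hS
    rw [hB, mem_filter, SS, mem_filter, mem_powerset] at hS
    obtain ⟨⟨k1, k2, k3⟩, k4, k5⟩ := hS
    rw [hW, mem_filter, mem_powerset]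
    refine ⟨fun p hp => ?_, (card_le_card (filter_subset _ _)).trans k4⟩
    obtain ⟨l1, l2⟩ := mem_filter.1 hp
    rw [hD, mem_filter, mem_range]
    exact ⟨by omega, (k2 p l1).prime⟩
  have hcard : (B.card : ℝ) ≤ ∑ S₀ ∈ W,
      2 ^ S₀.card * ((X : ℝ) / ((∏ p ∈ S₀, p : ℕ) : ℝ) * (2 ^ E.card * R)) := by
    rw [card_eq_sum_card_fiberwise (f := fun S => sm z S) (t := W) (fun S hS => hmaps S hS)]
    push_cast
    refine sum_le_sum fun S₀ hS₀ => ?_
    rw [hW, mem_filter, mem_powerset] at hS₀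
    have hpr : ∀ u ∈ S₀, u.Prime := fun u hu => (mem_filter.1 (hS₀.1 hu)).2
    have hle : ∀ u ∈ S₀, u ≤ z := fun u hu => by
      have := mem_range.1 (mem_filter.1 (hS₀.1 hu)).1
      omega
    have e1 : (B.filter fun S => sm z S = S₀).card ≤
        ((SS Φ X).filter fun S => ¬ Nd Φ (sm z S ∪ E) (la z S) ∧ sm z S = S₀).card := by
      refine card_le_card fun S hS => ?_
      rw [mem_filter, hB, mem_filter] at hS
      rw [mem_filter]
      exact ⟨hS.1.1, hS.1.2.2, hS.2⟩
    have e2 := e1.trans (fiberW Φ X z hpr hEz)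
    have e3 : ((B.filter fun S => sm z S = S₀).card : ℝ) ≤
        ∑ t ∈ (S₀ ∪ E).powerset, (X : ℝ) / ((∏ p ∈ S₀, p : ℕ) : ℝ) * R := by
      refine le_trans ((Nat.cast_le (α := ℝ)).2 e2) ?_
      rw [Nat.cast_sum]
      refine sum_le_sum fun t htS => ?_
      split_ifs with ht
      · exact key S₀ hpr hle hS₀.2 t (mem_powerset.1 htS) ht.1 ht.2
      · rw [Nat.cast_zero]
        exact mul_nonneg (div_nonneg (Nat.cast_nonneg _) (by positivity)) hR0
    refine e3.trans ?_
    rw [sum_const, card_powerset, nsmul_eq_mul]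
    push_cast
    have e4 : (2 : ℝ) ^ (S₀ ∪ E).card ≤ 2 ^ S₀.card * 2 ^ E.card := by
      rw [← pow_add]
      exact pow_le_pow_right₀ (by norm_num) (card_union_le _ _)
    have e5 : 0 ≤ (X : ℝ) / (∏ p ∈ S₀, (p : ℝ)) * R :=
      mul_nonneg (div_nonneg (Nat.cast_nonneg _) (prod_nonneg fun _ _ => Nat.cast_nonneg _)) hR0
    calc (2 : ℝ) ^ (S₀ ∪ E).card * ((X : ℝ) / (∏ p ∈ S₀, (p : ℝ)) * R) ≤
        (2 ^ S₀.card * 2 ^ E.card) * ((X : ℝ) / (∏ p ∈ S₀, (p : ℝ)) * R) :=
          mul_le_mul_of_nonneg_right e4 e5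
      _ = _ := by ring
  have hsum : ∑ S₀ ∈ W, 2 ^ S₀.card * ((X : ℝ) / ((∏ p ∈ S₀, p : ℕ) : ℝ) * (2 ^ E.card * R)) ≤
      X * (2 ^ E.card * R) * Real.exp (2 * Pm z) := by
    have e1 : ∀ S₀ ∈ W, 2 ^ S₀.card * ((X : ℝ) / ((∏ p ∈ S₀, p : ℕ) : ℝ) * (2 ^ E.card * R)) =
        X * (2 ^ E.card * R) * ∏ p ∈ S₀, (2 / (p : ℝ)) := by
      intro S₀ _
      rw [prod_div_distrib, prod_const]
      push_cast
      ring
    rw [sum_congr rfl e1, ← mul_sum]
    have h2XR : 0 ≤ (X : ℝ) * (2 ^ E.card * R) := by positivity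
    refine mul_le_mul_of_nonneg_left ?_ h2XR
    calc ∑ S₀ ∈ W, ∏ p ∈ S₀, (2 / (p : ℝ)) ≤ ∑ S₀ ∈ D.powerset, ∏ p ∈ S₀, (2 / (p : ℝ)) := by
          refine sum_le_sum_of_subset_of_nonneg (filter_subset _ _) fun S _ _ => ?_
          exact prod_nonneg fun _ _ => by positivity
      _ = ∏ p ∈ D, (1 + 2 / (p : ℝ)) := by rw [prod_one_add]
      _ ≤ ∏ p ∈ D, Real.exp (2 / (p : ℝ)) := by
          refine prod_le_prod (fun _ _ => by positivity) fun p _ => ?_
          rw [add_comm]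
          exact Real.add_one_le_exp _
      _ = Real.exp (∑ p ∈ D, 2 / (p : ℝ)) := by rw [Real.exp_sum]
      _ ≤ Real.exp (2 * Pm z) := by
          apply Real.exp_le_exp.2
          unfold Pm
          rw [mul_sum]
          have e2 : ∀ p : ℕ, 2 / (p : ℝ) = 2 * (1 / p) := fun p => by ring
          simp_rw [e2]
          refine sum_le_sum_of_subset_of_nonneg ?_ fun _ _ _ => by positivity
          intro p hp
          rw [hD, mem_filter, mem_range] at hp
          rw [mem_filter, mem_Icc]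
          exact ⟨⟨hp.2.pos, by omega⟩, hp.2⟩
  have hexp : Real.exp (2 * Pm z) ≤ Real.exp (2 * C₃) * Real.exp (6 * Real.log ℓ) := by
    have e1 := h3 z hz3
    have e2 := loglog_zz hl2
    rw [← hz, ← hℓ] at e2
    rw [← Real.exp_add]
    apply Real.exp_le_exp.2
    linarith
  have hXR : 0 ≤ (X : ℝ) * (2 ^ E.card * R) := by positivity
  calc (B.card : ℝ) ≤ X * (2 ^ E.card * R) * Real.exp (2 * Pm z) := hcard.trans hsum
    _ ≤ X * (2 ^ E.card * R) * (Real.exp (2 * C₃) * Real.exp (6 * Real.log ℓ)) :=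
        mul_le_mul_of_nonneg_left hexp hXR
    _ = 2 ^ E.card * (3 * C₁ * Real.exp K₀) * Real.exp (2 * C₃) * (X *
          Real.exp (((δ - θ) * ℓ - ℓ) + (4 * C₂ + 6) * Real.log ℓ)) := by
        rw [hR, show ((δ - θ) * ℓ - ℓ) + (4 * C₂ + 6) * Real.log ℓ =
          (((δ - θ) * ℓ - ℓ) + 4 * C₂ * Real.log ℓ) + 6 * Real.log ℓ by ring,
          Real.exp_add _ (6 * Real.log ℓ), add_assoc K₀, Real.exp_add K₀]
        ring
    _ ≤ 2 ^ E.card * (3 * C₁ * Real.exp K₀) * Real.exp (2 * C₃) * (X *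
          Real.exp (-(1 - δ + θ / 2) * ℓ)) := by
        have hC1 : 0 ≤ C₁ := by linarith
        have e9 : Real.exp (((δ - θ) * ℓ - ℓ) + (4 * C₂ + 6) * Real.log ℓ) ≤
            Real.exp (-(1 - δ + θ / 2) * ℓ) := by
          apply Real.exp_le_exp.2
          linarith
        gcongr

end Q44.BO
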