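import Pool.Agent.Q44.BM.ASY
import Pool.Agent.Q44.BO.Sml1
import Pool.Agent.Q44.BO.Box1

/-!
# The tail of the dimension, uniform in `X` and in the dimension
-/

set_option autoImplicit false

open scoped Classical
open Finset Filter

namespace Q44.BO

open Pool.Agent.Y703.CX (sm la jj XX eL zz kk S_SIE eL_tendsto logX_eq rpow_eL HH NN ev_eL one_le_exp
  HH_ge HH_le HH_pos kk_ge kk_le X_pos one_add_log lin_le kap zz_ge zz_pos kap_nonneg kap_pow kap_le)
open Pool.Agent.Y703.CQ (Sml sml_of sml_add sml_rpow)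
open Pool.Agent.Y687.JQ (sml_mainJ sml_sum)
open Q44.BM

/-- the sets outside the regular part are few, with a saving -/
theorem out_few {Φ : Fam} {δ : ℝ} (hΦ : Ok Φ δ) {I : Type} [Fintype I] (cl : I → ℕ → Prop)
    (hcl : ∀ i p, cl i p → Φ.P p) (hHM : ∀ i, HM (cl i)) :
    ∃ a : ℝ, 0 < a ∧ ∀ R : ℕ, Sml (1 - δ + a) fun X =>
      ((SS Φ X \ ((RR Φ X (zz X) (HH X) (kk X)).filter fun S =>
        NdC Φ cl R (sm (zz X) S) (la (zz X) S))).card : ℝ) := by
  have hδ := hΦ.pos
  obtain ⟨a₁, ha₁, h1⟩ := sml_bad1 hΦ (E := ∅) fun u hu => absurd hu (Finset.notMem_empty u)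
  have h2 : ∀ i, ∃ a : ℝ, 0 < a ∧ ∀ t : ℝ, t < 1 - δ + a → ∀ R : ℕ, Sml t fun X =>
      ((few Φ X (zz X) R (cl i)).card : ℝ) := fun i => sml_few1 hΦ (hcl i) (hHM i)
  choose b hb h2 using h2
  obtain ⟨a₂, ha₂, hab⟩ : ∃ a₂ : ℝ, 0 < a₂ ∧ ∀ i, a₂ ≤ b i := by
    rcases isEmpty_or_nonempty I with hI | hI
    · exact ⟨1, one_pos, fun i => hI.elim i⟩
    · refine ⟨univ.inf' univ_nonempty b, ?_, fun i => inf'_le _ (mem_univ i)⟩
      rw [lt_inf'_iff]
      exact fun i _ => hb i
  set a : ℝ := min (δ / 2) (min (a₁ / 2) (a₂ / 2)) with ha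
  have ha0 : 0 < a := lt_min (by linarith) (lt_min (by linarith) (by linarith))
  have k1 : a ≤ δ / 2 := min_le_left _ _
  have k2 : a ≤ a₁ / 2 := (min_le_right _ _).trans (min_le_left _ _)
  have k3 : a ≤ a₂ / 2 := (min_le_right _ _).trans (min_le_right _ _)
  refine ⟨a, ha0, fun R => ?_⟩
  have s1 := sml_many Φ (t := 1 - δ + a) (by linarith)
  have s2 := sml_cut Φ (t := 1 - δ + a) (by linarith)
  have s3 := sml_coll Φ (t := 1 - δ + a) (by linarith)
  have s5 := h1 (1 - δ + a) (by linarith)
  have s7 : Sml (1 - δ + a) fun X => ∑ e ∈ (univ : Finset I),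
      ((few Φ X (zz X) R (cl e)).card : ℝ) :=
    sml_sum _ _ fun e _ => h2 e (1 - δ + a) (by have := hab e; linarith) R
  have s := sml_add (sml_add (sml_add (sml_add s1 s2) s3) s5) s7
  intro ε hε
  filter_upwards [s ε hε] with X hX
  refine le_trans ?_ hX
  have g := card_le_card (out_sub Φ cl X (zz X) (HH X) (kk X) R)
  have g3 := Finset.card_biUnion_le (s := (univ : Finset I))
    (t := fun e => few Φ X (zz X) R (cl e))
  have g2 := ((g.trans (card_union_le _ _)).trans (Nat.add_le_add_right
    ((card_union_le _ _).trans (Nat.add_le_add_right ((card_union_le _ _).trans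
    (Nat.add_le_add_right (card_union_le _ _) _)) _)) _)).trans (Nat.add_le_add_left g3 _)
  exact_mod_cast g2

theorem cardS {α : Type} {P Q : α → Prop} {iP : DecidablePred P} {iQ : DecidablePred Q}
    (h : ∀ p, P p ↔ Q p) (s : Finset α) : (s.filter P).card = (s.filter Q).card := by
  congr 1
  ext p
  rw [mem_filter, mem_filter, h]

theorem card_SS_le (Φ : Fam) (X : ℕ) : (SS Φ X).card ≤ X := by
  have h1 : (SS Φ X).card ≤ (Icc 1 X).card := by
    apply card_le_of_prod (X := X) _ Subset.rfl
    intro S hS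
    obtain ⟨hP, hX⟩ := SS_prop hS
    exact mem_Icc.2 ⟨Finset.prod_pos fun p hp => (hP p hp).pos, hX⟩
  rwa [Nat.card_Icc, Nat.add_sub_cancel] at h1

/-- **the tail, uniform in `X` and in the dimension** -/
theorem t_TAIL {Φ : Fam} (hΦ : Ok Φ 1) {I : Type} [Fintype I] (cl : I → ℕ → Prop)
    (hcl : ∀ i p, cl i p → Φ.P p) (hHM : ∀ i, HM (cl i)) (d : Finset ℕ → ℕ) (g : ℕ)
    (hd : ∀ S, d S ≤ S.card + g) {t : ℝ} (ht : 0 < t) (K R : ℕ)
    (hBX : ∀ r : ℕ, BX Φ cl TT1 (fun S => r ≤ d S) 0 ((t + 2) / 2 ^ r) K R) :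
    ∃ q C : ℝ, 1 < q ∧ 0 < C ∧ ∀ X r : ℕ,
      (((SS Φ X).filter fun S => r ≤ d S).card : ℝ) ≤ C * X / q ^ r := by
  obtain ⟨a, ha, hout⟩ := out_few hΦ cl hcl hHM
  obtain ⟨C, hC1, hkey⟩ := t_KEY
  have s6 := sml_mainJ hC1 (t := 1 / 2) (by norm_num)
  have s1 := hout R
  have hkt : ∀ n : ℕ, ∀ᶠ X : ℕ in atTop, n ≤ kk X := by
    intro n
    filter_upwards [ev_eL (n + 1)] with X hX
    have h2 := kk_ge X
    have h0 : (0 : ℝ) ≤ n := Nat.cast_nonneg _
    have : (n : ℝ) ≤ kk X := by linarith
    exact_mod_cast this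
  -- the base
  have hl2 : 0 < Real.log 2 := Real.log_pos (by norm_num)
  obtain ⟨s, hs0, hs1, hs2, hs3⟩ : ∃ s : ℝ, 0 < s ∧ s ≤ 1 / 22 ∧ s ≤ Real.log 2 ∧
      s / a + s ≤ Real.log 2 := by
    refine ⟨min (1 / 22) (Real.log 2 * (a / (1 + a))), lt_min (by norm_num) (by positivity),
      min_le_left _ _, (min_le_right _ _).trans ?_, ?_⟩
    · refine mul_le_of_le_one_right hl2.le ?_
      rw [div_le_one (by positivity)]
      linarith
    · have h1 : min (1 / 22) (Real.log 2 * (a / (1 + a))) ≤ Real.log 2 * (a / (1 + a)) :=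
        min_le_right _ _
      have h2 : min (1 / 22) (Real.log 2 * (a / (1 + a))) / a +
          min (1 / 22) (Real.log 2 * (a / (1 + a))) =
          min (1 / 22) (Real.log 2 * (a / (1 + a))) * ((1 + a) / a) := by
        field_simp
      rw [h2]
      refine (mul_le_mul_of_nonneg_right h1 (by positivity)).trans (le_of_eq ?_)
      field_simp
  have hev : ∀ᶠ X : ℕ in atTop, 1 ≤ eL X ∧ K ≤ kk X ∧
      ((SS Φ X \ ((RR Φ X (zz X) (HH X) (kk X)).filter fun S =>
        NdC Φ cl R (sm (zz X) S) (la (zz X) S))).card : ℝ) ≤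
        X * Real.exp (-a * eL X) ∧
      (9 * (NN X : ℝ) + 9) ^ kk X * (3 ^ (6 * kk X ^ 2) * kap C X) * (X * (1 + Real.log X)) ≤
        X * Real.exp (-(1 / 2) * eL X) := by
    filter_upwards [ev_eL 1, hkt K, s1 1 one_pos, s6 1 one_pos] with X h1 h2 h3 h4
    refine ⟨h1, h2, ?_, ?_⟩
    · rw [one_mul] at h3
      have e : -(1 - 1 + a) = -a := by ring
      rw [e] at h3
      exact h3
    · rw [one_mul] at h4
      exact h4
  obtain ⟨X₀, hX₀⟩ := eventually_atTop.1 hev
  set q : ℝ := Real.exp s with hq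
  have hq1 : 1 < q := Real.one_lt_exp_iff.2 hs0
  have hq0 : 0 < q := Real.exp_pos s
  set B : ℕ := X₀ + 1 + g with hB
  refine ⟨q, (t + 2) + q ^ g + 1 + 2 ^ (g + 1) + q ^ B, hq1, by positivity, fun X r => ?_⟩
  have hqr : 0 < q ^ r := pow_pos hq0 r
  have hX0 : (0 : ℝ) ≤ X := Nat.cast_nonneg _
  rcases lt_or_ge X X₀ with hX | hX
  · -- small X
    rw [le_div_iff₀ hqr]
    rcases lt_or_ge B r with hr | hr
    · have h1 : (SS Φ X).filter (fun S => r ≤ d S) = ∅ := by
        rw [filter_eq_empty_iff]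
        intro S hS h2
        have h3 := hd S
        unfold SS at hS
        rw [mem_filter, mem_powerset] at hS
        have h4 := card_le_card hS.1
        rw [card_range] at h4
        omega
      rw [h1, card_empty, Nat.cast_zero, zero_mul]
      positivity
    · have h1 : (((SS Φ X).filter fun S => r ≤ d S).card : ℝ) ≤ X := by
        exact_mod_cast (card_filter_le _ _).trans (card_SS_le Φ X)
      have h2 : q ^ r ≤ q ^ B := pow_le_pow_right₀ hq1.le hr
      calc (((SS Φ X).filter fun S => r ≤ d S).card : ℝ) * q ^ r ≤ X * q ^ B :=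
            mul_le_mul h1 h2 hqr.le hX0
        _ = q ^ B * X := mul_comm _ _
        _ ≤ _ := by
            apply mul_le_mul_of_nonneg_right _ hX0
            have : (0 : ℝ) ≤ (t + 2) + q ^ g + 1 + 2 ^ (g + 1) := by positivity
            linarith
  · obtain ⟨hl, hkK, ho, he⟩ := hX₀ X hX
    obtain ⟨Gd, hGd⟩ : ∃ Gd : Finset ℕ → Prop, Gd = fun S => r ≤ d S := ⟨_, rfl⟩
    have hGd' : ∀ S, Gd S ↔ r ≤ d S := fun S => by rw [hGd]
    have hBXr := hBX r
    rw [← hGd] at hBXr
    rw [cardS (Q := Gd) (iQ := Classical.decPred _) (fun S => (hGd' S).symm) (SS Φ X)]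
    set l := eL X with hld
    have hl0 : 0 < l := by linarith
    have hXp := X_pos (X := X) hl0
    have hN : (HH X : ℝ) * Real.log X < NN X := by
      unfold NN
      push_cast
      exact Nat.lt_floor_add_one _
    have hr2 : 0 < (t + 2) / 2 ^ r := by positivity
    have hmain := hkey Φ I cl TT1 Gd 0 ((t + 2) / 2 ^ r) K R hr2 hBXr X (zz X)
      (HH X) (kk X) (NN X) (kap C X) hkK hXp (HH_pos hl0) (zz_pos hl) (kap_nonneg hC1 X)
      (kap_pow hC1 hl) hN
    rw [zero_mul, sub_zero, abs_of_nonneg (Nat.cast_nonneg _)] at hmain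
    set T := (RR Φ X (zz X) (HH X) (kk X)).filter fun S =>
      NdC Φ cl R (sm (zz X) S) (la (zz X) S) with hT
    have hTG : (RR Φ X (zz X) (HH X) (kk X)).filter
        (fun S => (NdC Φ cl R (sm (zz X) S) (la (zz X) S) ∧ TT1 S) ∧ Gd S) =
          T.filter Gd := by
      rw [hT, filter_filter]
      refine filter_congr fun S _ => ?_
      unfold TT1
      tauto
    rw [hTG] at hmain
    have hRS : ((RR Φ X (zz X) (HH X) (kk X)).card : ℝ) ≤ X := by
      exact_mod_cast (card_le_card (filter_subset _ _)).trans (card_SS_le Φ X)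
    have hexr : q ^ r = Real.exp (s * r) := by
      rw [hq, ← Real.exp_nat_mul, mul_comm]
    have h2r : (2 : ℝ) ^ r = Real.exp (Real.log 2 * r) := by
      rw [mul_comm, Real.exp_nat_mul, Real.exp_log (by norm_num)]
    have hr0 : (0 : ℝ) ≤ r := Nat.cast_nonneg _
    have hq2 : q ^ r ≤ 2 ^ r := by
      rw [hexr, h2r]
      exact Real.exp_le_exp.2 (mul_le_mul_of_nonneg_right hs2 hr0)
    -- the regular part
    have hreg : ((T.filter Gd).card : ℝ) ≤ ((t + 2) + q ^ g) * X / q ^ r := by
      rw [le_div_iff₀ hqr]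
      rcases lt_or_ge (kk X + g) r with hr | hr
      · have h1 : T.filter Gd = ∅ := by
          rw [filter_eq_empty_iff]
          intro S hS h2
          rw [hGd'] at h2
          have h3 := hd S
          have h4 : S ∈ RR Φ X (zz X) (HH X) (kk X) := (mem_filter.1 hS).1
          unfold RR at h4
          have h5 := (mem_filter.1 h4).2.2.1
          omega
        rw [h1, card_empty, Nat.cast_zero, zero_mul]
        positivity
      · have h1 : ((T.filter Gd).card : ℝ) ≤
            (t + 2) / 2 ^ r * X + X * Real.exp (-(1 / 2) * l) := by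
          refine hmain.trans (add_le_add (mul_le_mul_of_nonneg_left hRS hr2.le) he)
        have h2 : (t + 2) / 2 ^ r * X * q ^ r ≤ (t + 2) * X := by
          have h3 : (t + 2) / 2 ^ r * X * q ^ r = (t + 2) * X * (q ^ r / 2 ^ r) := by ring
          rw [h3]
          refine mul_le_of_le_one_right (by positivity) ?_
          rw [div_le_one (by positivity)]
          exact hq2
        have h3 : X * Real.exp (-(1 / 2) * l) * q ^ r ≤ q ^ g * X := by
          have h4 : Real.exp (-(1 / 2) * l) * q ^ r ≤ q ^ g := by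
            rw [hexr, ← Real.exp_add, hq, ← Real.exp_nat_mul]
            apply Real.exp_le_exp.2
            have h5 := kk_le (X := X) hl
            have h6 : (r : ℝ) ≤ kk X + g := by exact_mod_cast hr
            have h7 : s * r ≤ s * (11 * l + g) := by
              apply mul_le_mul_of_nonneg_left _ hs0.le
              linarith
            have h8 : s * (11 * l) ≤ 1 / 22 * (11 * l) :=
              mul_le_mul_of_nonneg_right hs1 (by positivity)
            linarith
          calc X * Real.exp (-(1 / 2) * l) * q ^ r = X * (Real.exp (-(1 / 2) * l) * q ^ r) := by ring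
            _ ≤ X * q ^ g := mul_le_mul_of_nonneg_left h4 hX0
            _ = _ := mul_comm _ _
        have h4 := mul_le_mul_of_nonneg_right h1 hqr.le
        linarith
    -- the exceptional part
    have hexc : ((((SS Φ X) \ T).filter Gd).card : ℝ) ≤
        (1 + 2 ^ (g + 1)) * X / q ^ r := by
      rw [le_div_iff₀ hqr]
      rcases le_or_gt (s * r) (a * l) with hc | hc
      · have h1 : ((((SS Φ X) \ T).filter Gd).card : ℝ) ≤
            X * Real.exp (-a * l) := by
          refine le_trans ?_ ho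
          exact_mod_cast card_filter_le _ _
        have h2 : Real.exp (-a * l) * q ^ r ≤ 1 := by
          rw [hexr, ← Real.exp_add]
          apply Real.exp_le_one_iff.2
          linarith
        calc _ ≤ X * Real.exp (-a * l) * q ^ r := mul_le_mul_of_nonneg_right h1 hqr.le
          _ = X * (Real.exp (-a * l) * q ^ r) := by ring
          _ ≤ X * 1 := mul_le_mul_of_nonneg_left h2 hX0
          _ ≤ _ := by
            have : (0 : ℝ) ≤ 2 ^ (g + 1) * X := by positivity
            linarith
      · have h1 : ((((SS Φ X) \ T).filter Gd).card : ℝ) * 2 ^ r ≤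
            2 ^ g * (X * (1 + Real.log X)) := by
          have h2 := sum_two_pow Φ X
          have h3 : ((((SS Φ X) \ T).filter Gd).card : ℝ) * 2 ^ r ≤
              ∑ S ∈ SS Φ X, (2 : ℝ) ^ g * 2 ^ S.card := by
            rw [← nsmul_eq_mul, ← sum_const]
            refine (sum_le_sum (g := fun S => (2 : ℝ) ^ g * 2 ^ S.card) fun S hS => ?_).trans
              (sum_le_sum_of_subset_of_nonneg ((filter_subset _ _).trans sdiff_subset)
                fun _ _ _ => by positivity)
            rw [← pow_add]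
            refine pow_le_pow_right₀ (by norm_num) ?_
            have h4 := hd S
            have h5 := (hGd' S).1 (mem_filter.1 hS).2
            omega
          rw [← mul_sum] at h3
          exact h3.trans (mul_le_mul_of_nonneg_left h2 (by positivity))
        have h2 : 1 + Real.log X ≤ 2 * Real.exp l := one_add_log hl0
        have h3 : Real.exp l * q ^ r ≤ 2 ^ r := by
          rw [hexr, h2r, ← Real.exp_add]
          apply Real.exp_le_exp.2
          have h4 : l ≤ s / a * r := by
            rw [div_mul_eq_mul_div, le_div_iff₀ ha]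
            linarith
          have h5 : (s / a + s) * r ≤ Real.log 2 * r := mul_le_mul_of_nonneg_right hs3 hr0
          linarith
        have h4 : ((((SS Φ X) \ T).filter Gd).card : ℝ) * 2 ^ r * q ^ r ≤
            2 ^ (g + 1) * X * 2 ^ r := by
          calc _ ≤ 2 ^ g * (X * (1 + Real.log X)) * q ^ r :=
                mul_le_mul_of_nonneg_right h1 hqr.le
            _ ≤ 2 ^ g * (X * (2 * Real.exp l)) * q ^ r := by gcongr
            _ = 2 ^ (g + 1) * X * (Real.exp l * q ^ r) := by ring
            _ ≤ _ := by gcongr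
        have h5 : (0 : ℝ) < 2 ^ r := by positivity
        have h6 : ((((SS Φ X) \ T).filter Gd).card : ℝ) * q ^ r * 2 ^ r ≤
            2 ^ (g + 1) * X * 2 ^ r := by linarith
        have h7 := le_of_mul_le_mul_right h6 h5
        have h8 : (1 + 2 ^ (g + 1)) * (X : ℝ) = 2 ^ (g + 1) * X + X := by ring
        linarith
    -- together
    have hTS : T ⊆ SS Φ X := (filter_subset _ _).trans (filter_subset _ _)
    have hsplit : (((SS Φ X).filter Gd).card : ℝ) =
        ((T.filter Gd).card : ℝ) + (((SS Φ X \ T).filter Gd).card : ℝ) := by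
      rw [← Nat.cast_add, ← card_union_of_disjoint, ← filter_union, union_sdiff_of_subset hTS]
      exact disjoint_filter_filter (disjoint_sdiff)
    rw [hsplit]
    refine (add_le_add hreg hexc).trans ?_
    rw [← add_div]
    apply div_le_div_of_nonneg_right _ hqr.le
    have h1 : (0 : ℝ) ≤ q ^ B * X := by positivity
    linarith

end Q44.BO
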