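import Pool.Agent.Q44.BN.Pub
import Pool.Agent.Q44.BO.Tail

/-!
# The tails of the orders of the Selmer groups and of the ranks over all the twists
-/

set_option autoImplicit false

open scoped Classical

namespace Q44.BO

open Finset Module Filter
open Q44.BC (lm lam)
open Q44.TK (Fm hF fin_Fm)
open Q44.BM (Fam RC Sys SS Ok HM GT hm_cls)
open Q44.TI (pd SelS cardf ratio)
open Q44.BN

/-- the dimension of the space of the solutions -/
theorem finrank_le {Φ : Fam} {G F : Type} [AddCommGroup G] [Module (ZMod 2) G] [AddCommGroup F]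
    [Module (ZMod 2) F] [Finite G] (σ : Sys Φ G F) (S : Finset ℕ) :
    finrank (ZMod 2) (σ.Sel S) ≤ S.card + finrank (ZMod 2) G := by
  have hf : Module.Finite (ZMod 2) G := Module.Finite.of_finite
  let φ : ((ℕ → ZMod 2) × G) →ₗ[ZMod 2] ((S → ZMod 2) × G) :=
    { toFun := fun w => (fun u => w.1 u, w.2)
      map_add' := fun _ _ => rfl
      map_smul' := fun _ _ => rfl }
  have h1 : Function.Injective (φ.comp (σ.Sel S).subtype) := by
    intro x y hxy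
    have h2 : (fun u : S => x.1.1 u) = fun u : S => y.1.1 u :=
      congrArg (fun t : (S → ZMod 2) × G => t.1) hxy
    have h3 : x.1.2 = y.1.2 := congrArg (fun t : (S → ZMod 2) × G => t.2) hxy
    refine Subtype.ext (Prod.ext (funext fun n => ?_) h3)
    by_cases hn : n ∈ S
    · exact congrFun h2 ⟨n, hn⟩
    · rw [(Q44.BM.Sys.mem_Sel.1 x.2).1 n fun h => hn h.1,
        (Q44.BM.Sys.mem_Sel.1 y.2).1 n fun h => hn h.1]
  have h2 := LinearMap.finrank_le_finrank_of_injective h1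
  rw [finrank_prod, finrank_fintype_fun_eq_card, Fintype.card_coe] at h2
  exact h2

/-- the tail for the systems of a local class -/
theorem tail_sys (c : Cu) : ∃ q C : ℝ, 1 < q ∧ 0 < C ∧ ∀ X r : ℕ,
    (((SS c.rc.Φ X).filter fun S => r ≤ finrank (ZMod 2) ((c.sy c.L0).Sel S)).card : ℝ) ≤
      C * X / q ^ r := by
  have hnz : NeZero c.m := ⟨c.hm.nz⟩
  have hfin := c.finFA
  have hcard : (Nat.card (c.sy c.L0).𝓛 : ℝ) = c.t * Nat.card c.FA := by
    have h1 : 0 < Nat.card c.FA := Nat.card_pos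
    have h2 : (0 : ℝ) < (Nat.card c.FA : ℝ) := by exact_mod_cast h1
    unfold Cu.t
    rw [div_mul_cancel₀ _ h2.ne']
    rfl
  obtain ⟨R, hR⟩ := t_BX1 (c.sy c.L0) c.good c.t_pos hcard c.lb_ok
  have hok : Ok c.rc.Φ 1 := by
    have h1 := c.rc.ok
    rwa [Cd.del_one] at h1
  refine t_TAIL hok c.cl (fun i p h => (c.P_iff p).2 ⟨h.1, Cu.cl_cop h⟩) (fun i => ?_)
    (fun S => finrank (ZMod 2) ((c.sy c.L0).Sel S)) (finrank (ZMod 2) (GG c.T))
    (fun S => finrank_le _ S) c.t_pos _ R hR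
  have h1 := hm_cls (Nat.pos_of_ne_zero c.hm.nz) {(i : ℕ)} (fun a ha => by
    rw [mem_singleton.1 ha]
    exact ⟨mem_range.1 (mem_filter.1 i.2).1, (mem_filter.1 i.2).2⟩) (singleton_nonempty _)
  obtain ⟨θ, C, hθ, h2⟩ := h1
  refine ⟨θ, C, hθ, fun y hy => (h2 y hy).trans (le_of_eq ?_)⟩
  refine sum_congr ?_ fun _ _ => rfl
  ext p
  simp only [mem_filter, mem_singleton]
  unfold Cu.cl
  tauto

/-- the tail in a local class -/
theorem tail_cls (c : Cu) : ∃ q C : ℝ, 1 < q ∧ 0 < C ∧ ∀ X r : ℕ,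
    (((Icc 1 X).filter fun D : ℕ => c.Dm D ∧
      2 ^ (r + 1) ≤ (SelS (c.A * D) (c.B * (D : ℤ) ^ 2)).ncard).card : ℝ) ≤ C * X / q ^ r := by
  obtain ⟨q, C, hq, hC, h⟩ := tail_sys c
  refine ⟨q, C, hq, hC, fun X r => le_trans ?_ (h X r)⟩
  obtain ⟨Q, hQ⟩ : ∃ Q : Finset ℕ → Prop, ∀ S, Q S ↔ (GT (hF c.m) (hF c.m c.d) S ∧
      r ≤ finrank (ZMod 2) ((c.sy c.L0).Sel S)) := ⟨_, fun _ => Iff.rfl⟩
  have h1 := card_nat c.rc.Φ X Q (iQ := Classical.decPred _)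
  have h2 : ((Icc 1 X).filter fun D : ℕ => c.Dm D ∧
      2 ^ (r + 1) ≤ (SelS (c.A * D) (c.B * (D : ℤ) ^ 2)).ncard).card =
      ((SS c.rc.Φ X).filter Q).card := by
    refine Eq.trans (cardS (fun D => ?_) _) h1
    rw [c.Dm_iff, hQ, and_assoc (b := GT (hF c.m) (hF c.m c.d) D.primeFactors)]
    refine and_congr_right fun h1 => and_congr_right fun h2 => ?_
    have h3 := (c.ncard_SelS h1.2 ((c.GT_iff h1.2).1 h2)).2
    have e : pd D.primeFactors = (D : ℤ) := by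
      unfold pd
      rw [Nat.prod_primeFactors_of_squarefree h1.1]
    rw [e] at h3
    rw [h3, Nat.pow_le_pow_iff_right (by norm_num)]
    omega
  rw [h2]
  refine Nat.cast_le.2 (card_le_card fun S hS => ?_)
  rw [mem_filter] at hS ⊢
  exact ⟨hS.1, ((hQ S).1 hS.2).2⟩

variable (e : Cd)

/-- the tail of a function over the twists -/
def Tl (n : ℤ → ℕ) (P : ℤ → Prop) : Prop := ∃ q C : ℝ, 1 < q ∧ 0 < C ∧ ∀ X r : ℕ,
  (((Sq X).filter fun D => P D ∧ 2 ^ (r + 1) ≤ n D).card : ℝ) ≤ C * X / q ^ r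

/-- the tail of a function over all the twists -/
def TlA (n : ℤ → ℕ) : Prop := ∃ q C : ℝ, 1 < q ∧ 0 < C ∧ ∀ X r : ℕ,
  (((Sq X).filter fun D => 2 ^ (r + 1) ≤ n D).card : ℝ) ≤ C * X / q ^ r

theorem Tl_of {n : ℤ → ℕ} {P : ℤ → Prop} {q C : ℝ} (hq : 1 < q) (hC : 0 < C) {k : ℕ} (c : ℕ → ℕ → ℕ)
    (h : ∀ X r, (c X r : ℝ) ≤ C * X / q ^ r)
    (h2 : ∀ X r, ((Sq X).filter fun D => P D ∧ 2 ^ (r + 1) ≤ n D).card = c (X / k) r) :
    Tl n P := by
  refine ⟨q, C, hq, hC, fun X r => ?_⟩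
  rw [h2]
  refine (h _ _).trans ?_
  have h3 : ((X / k : ℕ) : ℝ) ≤ X := by exact_mod_cast Nat.div_le_self _ _
  have h4 : 0 < q ^ r := by positivity
  gcongr

theorem tail_nS (κ : e.KK) : Tl e.nS (Same e.a e.b (e.rep κ)) := by
  obtain ⟨q, C, hq, hC, h⟩ := tail_cls (e.cκ κ)
  refine Tl_of hq hC (k := (UU κ.1).natAbs) (fun X r => ((Icc 1 X).filter fun D : ℕ =>
    (e.cκ κ).Dm D ∧ 2 ^ (r + 1) ≤ (SelS ((e.cκ κ).A * D) ((e.cκ κ).B * (D : ℤ) ^ 2)).ncard).card)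
    h fun X r => ?_
  refine e.card_cls κ.1 (e.dr_cop κ.2) (e.dr_prime κ.2).squarefree X _ _ fun d => ?_
  have e1 : (e.cκ κ).A * (d : ℤ) = e.a * (UU κ.1 * d) := by
    show e.a * UU κ.1 * d = _
    ring
  have e2 : (e.cκ κ).B * (d : ℤ) ^ 2 = e.b * (UU κ.1 * d) ^ 2 := by
    show e.b * UU κ.1 ^ 2 * d ^ 2 = _
    ring
  rw [e1, e2]
  rfl

theorem tail_nS' (κ : e.KK) : Tl e.nS' (Same e.a e.b (e.rep κ)) := by
  obtain ⟨q, C, hq, hC, h⟩ := tail_cls (e.cδ κ)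
  refine Tl_of hq hC (k := (UU κ.1).natAbs) (fun X r => ((Icc 1 X).filter fun D : ℕ =>
    (e.cδ κ).Dm D ∧ 2 ^ (r + 1) ≤ (SelS ((e.cδ κ).A * D) ((e.cδ κ).B * (D : ℤ) ^ 2)).ncard).card)
    h fun X r => ?_
  refine e.card_cls κ.1 (e.dr_cop κ.2) (e.dr_prime κ.2).squarefree X _ _ fun d => ?_
  have e1 : (e.cδ κ).A * (d : ℤ) = -2 * (e.a * (UU κ.1 * d)) := by
    show -2 * (e.a * UU κ.1) * d = _
    ring
  have e2 : (e.cδ κ).B * (d : ℤ) ^ 2 =
      (e.a * (UU κ.1 * d)) ^ 2 - 4 * (e.b * (UU κ.1 * d) ^ 2) := by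
    show ((e.a * UU κ.1) ^ 2 - 4 * (e.b * UU κ.1 ^ 2)) * d ^ 2 = _
    ring
  rw [e1, e2]
  rfl

/-- the sum over the local classes -/
theorem tail_sum {n : ℤ → ℕ} (h : ∀ κ : e.KK, Tl n (Same e.a e.b (e.rep κ))) :
    TlA n := by
  choose q C hq hC h using h
  have hne : Nonempty e.KK := ⟨0⟩
  set q₀ : ℝ := univ.inf' univ_nonempty q with hq₀
  have hq1 : 1 < q₀ := by
    rw [hq₀, lt_inf'_iff]
    exact fun κ _ => hq κ
  refine ⟨q₀, ∑ κ, C κ, hq1, sum_pos (fun κ _ => hC κ) univ_nonempty, fun X r => ?_⟩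
  have h1 : ((Sq X).filter fun D => 2 ^ (r + 1) ≤ n D).card =
      ∑ κ : e.KK, ((Sq X).filter fun D => Same e.a e.b (e.rep κ) D ∧ 2 ^ (r + 1) ≤ n D).card := by
    refine Eq.trans (cardS (fun D => Iff.rfl) _) ((e.sum_cls X fun D => 2 ^ (r + 1) ≤ n D).trans ?_)
    exact sum_congr rfl fun κ _ => cardS (fun D => Iff.rfl) _
  rw [h1, Nat.cast_sum, sum_mul, sum_div]
  refine sum_le_sum fun κ _ => (h κ X r).trans ?_
  have h2 : q₀ ^ r ≤ q κ ^ r := pow_le_pow_left₀ (by linarith) (inf'_le _ (mem_univ κ)) r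
  have h3 : 0 < q₀ ^ r := by positivity
  have h4 := hC κ
  exact div_le_div_of_nonneg_left (by positivity) h3 h2

/-- **the tail of the ranks over all the twists** -/
theorem tail_rs : ∃ q C : ℝ, 1 < q ∧ 0 < C ∧ ∀ X r : ℕ,
    (((Sq X).filter fun D => 4 ^ r ≤ e.rs D).card : ℝ) ≤ C * X / q ^ r := by
  obtain ⟨q, C, hq, hC, h⟩ := tail_sum e (tail_nS e)
  obtain ⟨q', C', hq', hC', h'⟩ := tail_sum e (tail_nS' e)
  have hm : 1 < min q q' := lt_min hq hq'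
  refine ⟨min q q', C + C', hm, by positivity, fun X r => ?_⟩
  have h1 : ((Sq X).filter fun D => 4 ^ r ≤ e.rs D) ⊆
      ((Sq X).filter fun D => 2 ^ (r + 1) ≤ e.nS D) ∪
        ((Sq X).filter fun D => 2 ^ (r + 1) ≤ e.nS' D) := by
    intro D hD
    rw [mem_filter] at hD
    rw [mem_union, mem_filter, mem_filter]
    by_contra hcon
    have h2 : e.nS D < 2 ^ (r + 1) := by
      by_contra h3
      exact hcon (Or.inl ⟨hD.1, not_lt.1 h3⟩)
    have h3 : e.nS' D < 2 ^ (r + 1) := by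
      by_contra h3
      exact hcon (Or.inr ⟨hD.1, not_lt.1 h3⟩)
    have h4 := (e.rs_le (mem_Sq.1 hD.1).2).2
    have h5 : e.nS D * e.nS' D < 2 ^ (r + 1) * 2 ^ (r + 1) :=
      Nat.mul_lt_mul'' h2 h3
    have h6 : 2 ^ (r + 1) * 2 ^ (r + 1) = 4 * 4 ^ r := by
      have : (4 : ℕ) = 2 * 2 := rfl
      rw [this, mul_pow, pow_succ]
      ring
    have := hD.2
    omega
  have h2 : (((Sq X).filter fun D => 4 ^ r ≤ e.rs D).card : ℝ) ≤
      (((Sq X).filter fun D => 2 ^ (r + 1) ≤ e.nS D).card : ℝ) +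
        (((Sq X).filter fun D => 2 ^ (r + 1) ≤ e.nS' D).card : ℝ) := by
    exact_mod_cast (card_le_card h1).trans (card_union_le _ _)
  refine h2.trans ((add_le_add (h X r) (h' X r)).trans ?_)
  have k0 : 0 < min q q' ^ r := by positivity
  have k1 : min q q' ^ r ≤ q ^ r := pow_le_pow_left₀ (by linarith) (min_le_left _ _) r
  have k2 : min q q' ^ r ≤ q' ^ r := pow_le_pow_left₀ (by linarith) (min_le_right _ _) r
  rw [add_mul, add_div]
  exact add_le_add (div_le_div_of_nonneg_left (by positivity) k0 k1)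
    (div_le_div_of_nonneg_left (by positivity) k0 k2)

end Q44.BO
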